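import Pool.Agent.Lib.MP_0d9445_pr.AS.Defs
import Pool.Agent.Lib.MP_0d9445_pr.EN.All

/-! AS2: transfer of monotone pattern events from the model to the surface. -/

open MeasureTheory ProbabilityTheory Set Filter Topology Real LQ.Met
open scoped NNReal ENNReal

noncomputable section

namespace Pool.Agent.Lib.MP_0d9445_pr.AS

open CR PPP Walk Cell

variable {Ω : Type} [MeasurableSpace Ω] {M : Model} {P : Measure Ω} {S O N : Set ℂ}
  {s : Ω → Cf} {Y : ℝ≥0 → Ω → Set ℂ}

theorem crude_ind_le {α : Type*} {A : Set α} {f : α → ℝ≥0∞} {x : α} {b : ℝ≥0∞}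
    (h : x ∈ A → f x ≤ b) : A.indicator f x ≤ b := by
  by_cases hx : x ∈ A
  · rw [indicator_of_mem hx]
    exact h hx
  · rw [indicator_of_notMem hx]
    exact zero_le

theorem crude_one_le {α : Type*} {A : Set α} {x : α} (h : x ∈ A) :
    (1 : ℝ≥0∞) ≤ A.indicator 1 x := (indicator_of_mem h (1 : α → ℝ≥0∞)).ge

/-- A countable cover by arbitrary sets is replaced by a cover by events of `s`. -/
theorem crude_hull {α Γ ι : Type*} [MeasurableSpace α] [MeasurableSpace Γ] [Countable ι]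
    (Q : Measure α) [IsFiniteMeasure Q] {r : α → Γ} (hr : Measurable r) (A : ι → Set α)
    (hA : ∀ᵐ ω ∂Q, ∃ k, ω ∈ A k) :
    ∃ B : ι × ℕ → Set Γ, (∀ j, MeasurableSet (B j)) ∧ (∀ᵐ ω ∂Q, ∃ j, r ω ∈ B j) ∧
      ∀ (j : ι × ℕ) (f : Γ → ℝ≥0∞) (g : α → ℝ≥0∞), Measurable f → Measurable g →
        (∀ ω ∈ A j.1, f (r ω) ≤ g ω) →
        ∫⁻ ω, (B j).indicator f (r ω) ∂Q ≤ j.2 * ∫⁻ ω, g ω ∂Q := by
  have hac : ∀ k, (Q.restrict (A k)).map r ≪ Q.map r := fun k =>
    (Measure.absolutelyContinuous_of_le Measure.restrict_le_self).map hr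
  have hm : ∀ j : ι × ℕ, MeasurableSet
      {x | 1 ≤ (j.2 : ℝ≥0∞) * ((Q.restrict (A j.1)).map r).rnDeriv (Q.map r) x} := fun j =>
    measurableSet_le measurable_const ((Measure.measurable_rnDeriv _ _).const_mul _)
  refine ⟨_, hm, ?_, fun j f g hf hg h => ?_⟩
  · have h1 : ∀ k, ∀ᵐ ω ∂Q, ω ∈ A k →
        0 < ((Q.restrict (A k)).map r).rnDeriv (Q.map r) (r ω) := fun k =>
      ae_imp_of_ae_restrict (ae_of_ae_map hr.aemeasurable (Measure.rnDeriv_pos (hac k)))
    filter_upwards [hA, ae_all_iff.2 h1] with ω ⟨k, hk⟩ h2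
    obtain ⟨i, hi⟩ := ENNReal.exists_nat_mul_gt (h2 k hk).ne' ENNReal.one_ne_top
    exact ⟨(k, i), hi.le⟩
  · rw [← lintegral_map (hf.indicator (hm j)) hr]
    calc _ ≤ ∫⁻ x, j.2 * (((Q.restrict (A j.1)).map r).rnDeriv (Q.map r) x * f x) ∂Q.map r := by
          refine lintegral_mono fun x => crude_ind_le fun hx => ?_
          rw [← mul_assoc]
          exact le_mul_of_one_le_left' hx
      _ = j.2 * ∫⁻ ω in A j.1, f (r ω) ∂Q := by
          rw [lintegral_const_mul' _ _ (ENNReal.natCast_ne_top _),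
            lintegral_rnDeriv_mul (hac j.1) hf.aemeasurable, lintegral_map hf hr]
      _ ≤ _ := by
          refine mul_le_mul_right (le_trans (lintegral_mono_ae ?_) (setLIntegral_le_lintegral _ _)) _
          exact (ae_restrict_iff (measurableSet_le (hf.comp hr) hg)).2 (ae_of_all _ h)

/-- absolute continuity for functions bounded by one -/
theorem crude_ac {Γ : Type*} [MeasurableSpace Γ] {μ ν : Measure Γ} [IsProbabilityMeasure μ]
    [IsFiniteMeasure ν] (h : μ ≪ ν) {ε : ℝ≥0∞} (hε : 0 < ε) :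
    ∃ δ : ℝ≥0∞, 0 < δ ∧ ∀ f : Γ → ℝ≥0∞, Measurable f → (∀ x, f x ≤ 1) →
      ∫⁻ x, f x ∂ν ≤ δ → ∫⁻ x, f x ∂μ ≤ ε := by
  have h2 : ε / 2 ≠ 0 := (ENNReal.half_pos hε.ne').ne'
  obtain ⟨δ₀, h0, hδ⟩ := exists_pos_setLIntegral_lt_of_measure_lt
    (Measure.lintegral_rnDeriv_lt_top μ ν).ne h2
  obtain ⟨δ₁, h1, h1'⟩ := exists_between h0
  have e0 : min (ε / 2) 1 ≠ 0 := (lt_min (pos_iff_ne_zero.2 h2) one_pos).ne'
  have et : min (ε / 2) 1 ≠ ∞ := ne_top_of_le_ne_top ENNReal.one_ne_top (min_le_right _ _)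
  refine ⟨min (ε / 2) 1 * δ₁, ENNReal.mul_pos e0 h1.ne', fun f hf hf1 hle => ?_⟩
  have hS : MeasurableSet {x | min (ε / 2) 1 ≤ f x} := measurableSet_le measurable_const hf
  have k1 := (ENNReal.mul_le_mul_iff_right e0 et).1
    ((mul_meas_ge_le_lintegral₀ hf.aemeasurable (min (ε / 2) 1)).trans hle)
  have k2 := hδ _ (k1.trans_lt h1')
  rw [Measure.setLIntegral_rnDeriv h] at k2
  calc ∫⁻ x, f x ∂μ ≤ ∫⁻ x, ({x | min (ε / 2) 1 ≤ f x}.indicator 1 x + ε / 2) ∂μ := by
        refine lintegral_mono fun x => ?_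
        by_cases hx : min (ε / 2) 1 ≤ f x
        · rw [indicator_of_mem (by exact hx)]
          exact (hf1 x).trans le_self_add
        · exact ((not_le.1 hx).le.trans (min_le_left _ _)).trans le_add_self
    _ = μ {x | min (ε / 2) 1 ≤ f x} + ε / 2 := by
        rw [lintegral_add_right _ measurable_const, lintegral_indicator_one hS, lintegral_const,
          measure_univ, mul_one]
    _ ≤ ε / 2 + ε / 2 := add_le_add_left k2.le _
    _ = ε := ENNReal.add_halves ε

theorem crude_T_smul (w : Sq) {a : ℝ} (ha : 0 ≤ a) (d : Met) (p : ℂ × ℂ) :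
    T w (a • d) p = a * T w d p := by
  show min (a * d (proj w p.1, proj w p.2))
      (sInf ((fun u => a * d (proj w p.1, u)) '' frontier w.o)) =
    a * min (d (proj w p.1, proj w p.2)) (sInf ((fun u => d (proj w p.1, u)) '' frontier w.o))
  rw [mul_min_of_nonneg _ _ ha, ← smul_eq_mul a (sInf _), ← Real.sInf_smul_of_nonneg ha,
    ← image_smul, image_image]
  rfl

/-- closeness does not see constant factors of the metrics and a common factor of the measures -/
theorem crude_close_smul {ξ γ K a a' : ℝ} {W : Sq} {c₁ c₂ : Cf} (h : Close ξ γ K W c₁ c₂)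
    (ha : 0 < a) (ha' : 0 < a') (b : ℝ≥0∞) :
    Close ξ γ K W (a • c₁.1, b • c₁.2) (a' • c₂.1, b • c₂.2) := by
  obtain ⟨⟨κ, hκ, hT⟩, h1, h2⟩ := h
  refine ⟨⟨κ * a / a', by positivity, fun w hw p => ?_⟩, fun A => ?_, fun A => ?_⟩
  · rw [crude_T_smul w ha.le, crude_T_smul w ha'.le]
    have e : ∀ x y : ℝ, κ * a / a' * x * (a' * y) = a * (κ * x * y) := fun x y => by
      field_simp
    rw [e, e]
    exact ⟨mul_le_mul_of_nonneg_left (hT w hw p).1 ha.le,
      mul_le_mul_of_nonneg_left (hT w hw p).2 ha.le⟩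
  · have := mul_le_mul_right (h1 A) b
    simp only [Measure.restrict_smul, Measure.smul_apply, smul_eq_mul] at this ⊢
    rwa [mul_left_comm]
  · have := mul_le_mul_right (h2 A) b
    simp only [Measure.restrict_smul, Measure.smul_apply, smul_eq_mul] at this ⊢
    rwa [mul_left_comm]

theorem crude_meas_smul (a : ℝ) (b : ℝ≥0∞) : Measurable fun c : Cf => ((a • c.1, b • c.2) : Cf) :=
  ((continuous_const_smul a).measurable.comp measurable_fst).prodMk
    ((measurable_smul_measure b).comp measurable_snd)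

theorem crude_meas_scale (ξ γ t : ℝ) : Measurable (scale ξ γ t) := crude_meas_smul _ _

/-- the model field before the normalisation -/
def crudeH (M : Model) (ω : M.Ω) : Field := addFn (M.H 0 ω) (M.ginf ω)

theorem crude_meas_cst (M : Model) : Measurable fun ω => cst (-(crudeH M ω) 0) :=
  ContinuousMap.continuous_const'.measurable.comp ((Mu.measurable_eval 0).comp M.gff.meas).neg

theorem crude_meas_hat (M : Model) : Measurable M.hat :=
  measurable_addFn.comp (M.gff.meas.prodMk (crude_meas_cst M))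

theorem crude_plus (M : Model) : IsGFFplus (crudeH M) M.P :=
  ⟨M.gff.meas, 0, measurable_const, by
    simp only [Pi.zero_apply, neg_zero, Mu.addFn_zero]
    exact M.gff⟩

theorem crude_plus_hat (M : Model) : IsGFFplus M.hat M.P :=
  ⟨crude_meas_hat M, _, crude_meas_cst M, by
    have e : ∀ ω, addFn (M.hat ω) (-cst (-(crudeH M ω) 0)) = crudeH M ω := fun ω => by
      show addFn (addFn (crudeH M ω) (cst (-(crudeH M ω) 0))) _ = _
      rw [Mu.addFn_addFn, add_neg_cancel, Mu.addFn_zero]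
    simp only [e]
    exact M.gff⟩

/-- the normalised model field is close to the model field -/
theorem crude_model_close (M : Model) (W : Sq) : ∀ᵐ ω ∂M.P, ∃ k : ℕ,
    Close M.ξ M.γ k W (M.conf (M.hat ω)) (M.conf (crudeH M ω)) := by
  filter_upwards [M.hD.length _ _ _ (crude_plus M), M.hD.length _ _ _ (crude_plus_hat M),
    M.hD.weyl _ _ _ (crude_plus M), M.hμ.vague _ _ _ (crude_plus M),
    M.hμ.vague _ _ _ (crude_plus_hat M)] with ω l0 l1 w v0 v1
  have g0 : IsGood (M.conf (crudeH M ω)) := l0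
  have g1 : IsGood (M.conf (M.hat ω)) := l1
  have w0 := w 0
  rw [Mu.addFn_zero] at w0
  have v2 := Mu.vague_addFn v0 0
  rw [Mu.addFn_zero] at v2
  have e1 : M.μ (M.hat ω) = _ :=
    Mu.vague_unique v1 (Mu.vague_addFn v0 (cst (-(crudeH M ω) 0)))
  have e0 : M.μ (crudeH M ω) = _ := Mu.vague_unique v0 v2
  have w1 : IsWeylOn (fun z => M.ξ * cst (-(crudeH M ω) 0) z) (Function.curry (M.D (crudeH M ω)))
      (Function.curry (M.conf (M.hat ω)).1) univ :=
    fun x _ y _ => (l1.2 x y).trans (w (cst (-(crudeH M ω) 0)) x y)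
  have w2 : IsWeylOn (fun z => M.ξ * (0 : Fn) z) (Function.curry (M.D (crudeH M ω)))
      (Function.curry (M.conf (crudeH M ω)).1) univ :=
    fun x _ y _ => (l0.2 x y).trans (w0 x y)
  refine ⟨⌈|(crudeH M ω) 0|⌉₊, EN.close_of_weylOn (t := 0) (m := M.μ (crudeH M ω)) M.ξ_pos.le
    M.γ_pos.le g1 g0 w1 w2 (subset_univ _) (subset_univ _) ?_ ?_ fun z _ => ?_⟩
  · simp only [add_zero]
    rw [← e1]
    rfl
  · rw [← e0]
    rfl
  · simpa using Nat.le_ceil |(crudeH M ω) 0|

theorem crude_ref0_fin (M : Model) (W : Sq) : ∀ᵐ c ∂M.ref0, c.2 W.o < ∞ :=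
  (ae_map_iff (M.measurable_conf.comp (crude_meas_hat M)).aemeasurable (measurableSet_lt
    ((Measure.measurable_coe (EN.measurableSet_o W)).comp measurable_snd) measurable_const)).2
    ((M.hμ.vague _ _ _ (crude_plus_hat M)).mono fun _ h => EN.lt_top_of_locFin h.1 W)

/-- the model probability as an expectation over the model space -/
theorem crude_modP (h9 : M.E9) (L : ℝ) (W : Sq) (t : ℝ) {E : Set Pat}
    (hE : MeasurableSet (pat M.ξ L W ⁻¹' E)) : modP M L W t (pat M.ξ L W ⁻¹' E) =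
      ∫⁻ ω, Theta M.ξ M.γ L W E (scale M.ξ M.γ t (M.conf (crudeH M ω))) ∂M.P := by
  have hΘ := EN.measurable_Theta M.ξ M.γ L W hE
  have hΦ : Measurable fun p : Fn × Field =>
      Theta M.ξ M.γ L W E (scale M.ξ M.γ t (M.conf (addFn p.2 p.1))) :=
    hΘ.comp ((crude_meas_scale _ _ _).comp (M.measurable_conf.comp
      (measurable_addFn.comp measurable_swap)))
  have hi : IndepFun M.ginf (M.H 0) M.P := (M.indep_ginf 0).comp measurable_fst measurable_id
  have hp := (indepFun_iff_map_prod_eq_prod_map_map M.meas_ginf.aemeasurable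
    (M.meas_H 0).aemeasurable).1 hi
  have := Measure.isProbabilityMeasure_map (μ := M.P) (M.meas_H 0).aemeasurable
  have e := lintegral_map (μ := M.P) hΦ (M.meas_ginf.prodMk (M.meas_H 0))
  rw [hp, lintegral_prod _ hΦ.aemeasurable] at e
  refine Eq.trans (lintegral_congr fun g => ?_) e
  refine (EN.Phat_eq_Theta M L W 0 _ hE).trans ?_
  rw [← h9, lintegral_map hΘ (crude_meas_scale _ _ _), M.Pk_eq]
  exact (lintegral_map (hΘ.comp (crude_meas_scale _ _ _)) (M.measurable_cf 0 g)).trans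
    (lintegral_map (hΦ.comp measurable_prodMk_left) (M.meas_H 0)).symm

/-- the conditional probability of the event for the true pattern -/
theorem crude_cox {ξ γ : ℝ} {l : ℝ≥0} {W : Sq} {Z : Ω → Set ℂ}
    (hZ : IsCox P s (winInt l W.o) fun ω => Z ω ∩ W.o) (hfin : ∀ᵐ ω ∂P, (s ω).2 W.o < ∞)
    {E : Set Pat} (hU : ∀ a b : Pat, a.Le b → a ∈ E → b ∈ E)
    (hE : MeasurableSet (pat ξ 0 W ⁻¹' E)) {B : Set Cf} (hB : MeasurableSet B) :
    P (s ⁻¹' B ∩ {ω | tpat W (s ω).1 (Z ω) ∈ E}) ≤ ∫⁻ ω, B.indicator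
      (fun c => Theta ξ γ 0 W E ((1 : ℝ) • c.1, (l : ℝ≥0∞) • c.2)) (s ω) ∂P := by
  have hE1 : MeasurableSet {p : Cf × Tup | mkPat W 1 p.1.1 (pts p.2) (pts p.2) ∈ E} := by
    have := (measurable_fst.prodMk (measurable_snd.prodMk measurable_snd) :
      Measurable fun p : Cf × Tup => ((p.1, p.2, p.2) : Xi)) hE
    simpa only [preimage, mem_ofPred_eq, pat, mul_zero, exp_zero, union_self] using this
  let F : Cf → Set ℂ → ℝ≥0∞ := fun c R =>
    {q : Cf × Set ℂ | q.1 ∈ B ∧ mkPat W 1 q.1.1 q.2 q.2 ∈ E}.indicator 1 (c, R)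
  have hF : Measurable fun p : Cf × Tup => F p.1 (pts p.2) :=
    measurable_one.indicator ((measurable_fst hB).inter hE1)
  calc _ ≤ P {ω | 1 ≤ F (s ω) (Z ω ∩ W.o)} :=
        measure_mono fun ω hω => crude_one_le (A := {q : Cf × Set ℂ | q.1 ∈ B ∧
          mkPat W 1 q.1.1 q.2 q.2 ∈ E}) (x := (s ω, Z ω ∩ W.o)) hω
    _ ≤ ∫⁻ ω, F (s ω) (Z ω ∩ W.o) ∂P := by
        simpa using mul_meas_ge_le_lintegral₀ (hZ.aemeasurable hF) 1
    _ = _ := hZ.lintegral_eq hF
    _ ≤ _ := by
        refine lintegral_mono_ae (hfin.mono fun ω hω => ?_)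
        by_cases hb : s ω ∈ B
        · have hm : Measurable fun x : Tup => F (s ω) (pts x) := hF.comp measurable_prodMk_left
          have e : winInt l W.o (s ω) =
              inten (exp (-(γ * 0))) W ((1 : ℝ) • (s ω).1, (l : ℝ≥0∞) • (s ω).2) := by
            rw [inten, if_pos (by exact ENNReal.mul_lt_top ENNReal.coe_lt_top hω), mul_zero,
              neg_zero, exp_zero, ENNReal.ofReal_one, one_smul, winInt]
          have hm2 : MeasurableSet
              {y | pat ξ 0 W (((1 : ℝ) • (s ω).1, (l : ℝ≥0∞) • (s ω).2), y) ∈ E} :=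
            measurable_prodMk_left hE
          rw [indicator_of_mem hb, Theta, EN.pt2K_apply, e, ← lintegral_indicator_one hm2]
          refine (EN.lintegral_pp2_fst _ _ hm).symm.trans_le (lintegral_mono fun y => ?_)
          refine crude_ind_le fun hq => crude_one_le (hU _ _ ?_ hq.2)
          refine ⟨fun n v h => ?_, subset_union_left⟩
          simpa only [pat, mkPat, mul_zero, exp_zero, one_smul] using h
        · rw [indicator_of_notMem hb]
          refine le_of_eq ((lintegral_congr fun x => ?_).trans lintegral_zero)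
          exact indicator_of_notMem (fun h => hb h.1) _

theorem crude_of (h9 : M.E9) [IsProbabilityMeasure P] {W : Sq} (hs : Measurable s)
    (hY : ∀ l : ℝ≥0, IsCox P s (winInt l W.o) fun ω => Y l ω ∩ W.o)
    (hc : ∃ c : Ω → Cf, Measurable c ∧ P.map c ≪ M.ref0 ∧
      ∀ᵐ ω ∂P, ∃ k : ℕ, Close M.ξ M.γ k W (s ω) (c ω)) : Crude M P s Y W := by
  obtain ⟨c, hc, hac, hcl⟩ := hc
  have hγ := M.γ_pos
  have m0 : Measurable fun ω => M.conf (M.hat ω) := M.measurable_conf.comp (crude_meas_hat M)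
  have m1 : Measurable fun ω => M.conf (crudeH M ω) := M.measurable_conf.comp M.gff.meas
  have p0 : IsProbabilityMeasure M.ref0 := Measure.isProbabilityMeasure_map m0.aemeasurable
  have p1 : IsProbabilityMeasure (P.map c) := Measure.isProbabilityMeasure_map hc.aemeasurable
  obtain ⟨B', hB', hcov', hle'⟩ := crude_hull M.P m0
    (fun k : ℕ => {ω | Close M.ξ M.γ k W (M.conf (M.hat ω)) (M.conf (crudeH M ω))})
    (crude_model_close M W)
  have a1 : ∀ᵐ ω ∂P, ∃ j, c ω ∈ B' j :=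
    ae_of_ae_map hc.aemeasurable (hac.ae_le ((ae_map_iff m0.aemeasurable
      (p := fun x => ∃ j, x ∈ B' j) (by
        simpa only [← mem_iUnion, ofPred_mem_eq] using MeasurableSet.iUnion hB')).2 hcov'))
  have hfin : ∀ᵐ ω ∂P, (s ω).2 W.o < ∞ := by
    filter_upwards [hcl, ae_of_ae_map hc.aemeasurable (hac.ae_le (crude_ref0_fin M W))]
      with ω ⟨k, hk⟩ h
    exact (EN.Close.lt_top_iff hk).2 h
  obtain ⟨B, hB, hcov, hle⟩ := crude_hull P hs
    (fun k : ℕ × ℕ × ℕ => {ω | Close M.ξ M.γ k.1 W (s ω) (c ω) ∧ c ω ∈ B' k.2}) (by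
      filter_upwards [hcl, a1] with ω ⟨k, hk⟩ ⟨j, hj⟩
      exact ⟨(k, j), hk, hj⟩)
  obtain ⟨e, he⟩ := exists_surjective_nat ((ℕ × ℕ × ℕ) × ℕ)
  refine ⟨fun j => s ⁻¹' B (e j), fun j => hs (hB _), hcov.mono fun ω ⟨j, hj⟩ => ?_, fun j => ?_⟩
  · obtain ⟨n, rfl⟩ := he j
    exact ⟨n, hj⟩
  beta_reduce
  generalize e j = q
  obtain ⟨⟨k, k', i'⟩, i⟩ := q
  have hk : (0 : ℝ) ≤ 0 + k := by positivity
  refine ⟨0 + k + k', by positivity, fun ε hε => ?_⟩
  obtain ⟨δ, hδ, hδ'⟩ := crude_ac hac (ε := ε / i) (ENNReal.div_pos hε.ne' (ENNReal.natCast_ne_top i))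
  refine ⟨δ / i', ENNReal.div_pos hδ.ne' (ENNReal.natCast_ne_top i'), fun l hl E hU hE hP => ?_⟩
  have el : ENNReal.ofReal (exp (M.γ * ht M.γ l)) = l := by
    rw [ht, mul_div_cancel₀ _ hγ.ne', exp_log (by exact_mod_cast hl), ENNReal.ofReal_coe_nnreal]
  have hΘ : ∀ L : ℝ, 0 ≤ L → Measurable (Theta M.ξ M.γ L W E) := fun L hL =>
    EN.measurable_Theta _ _ _ _ (hE L hL)
  have hf : Measurable fun x => Theta M.ξ M.γ (0 + k) W E (scale M.ξ M.γ (ht M.γ l) x) :=
    (hΘ _ hk).comp (crude_meas_scale _ _ _)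
  have hf' := hf.indicator (hB' (k', i'))
  refine (crude_cox (γ := M.γ) (hY l) hfin hU (hE 0 le_rfl) (hB _)).trans ?_
  refine (hle ((k, k', i'), i) _ _ ((hΘ 0 le_rfl).comp (crude_meas_smul _ _)) (hf'.comp hc)
    fun ω hω => ?_).trans ((mul_le_mul_right ?_ _).trans ENNReal.mul_div_le)
  · rw [Function.comp_apply, Function.comp_apply, indicator_of_mem hω.2, ← el]
    exact EN.Theta_mono (by simp) (by positivity) (crude_close_smul hω.1 one_pos (exp_pos _) _) hU
      (hE 0 le_rfl) (hE _ hk)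
  · refine (lintegral_map hf' hc).symm.trans_le (hδ' _ hf' (fun x => ?_) ?_)
    · exact crude_ind_le fun _ => prob_le_one
    · rw [crude_modP h9 _ _ _ (hE _ (by positivity))] at hP
      refine (lintegral_map hf' m0).trans_le ((hle' (k', i') _ _ hf
        ((hΘ (0 + k + k') (by positivity)).comp ((crude_meas_scale _ _ _).comp m1))
        fun ω hω => ?_).trans ((mul_le_mul_right hP _).trans ENNReal.mul_div_le))
      exact EN.Theta_mono (by positivity) (by positivity)
        (crude_close_smul hω (exp_pos _) (exp_pos _) _) hU (hE _ hk) (hE _ (by positivity))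

theorem crude (F : M.All) (hS : Surf M P S O N s Y) {W : Sq} (hW : W.c ⊆ O) :
    Crude M P s Y W :=
  have := hS.prob
  crude_of F.e9 hS.meas (fun l => hS.cox l W hW) (hS.close W hW)

end Pool.Agent.Lib.MP_0d9445_pr.AS
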