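import Pool.Agent.Lib.MP_0d9445_pr.AS.Defs
import Pool.Agent.Lib.MP_0d9445_pr.CR.D1
import Pool.Agent.Lib.MP_0d9445_pr.CR.D2
import Pool.Agent.Lib.MP_0d9445_pr.Met.LFC

/-! The true pattern dominates the cells; comparison of finite nets. -/

open MeasureTheory ProbabilityTheory Set Filter Topology Real LQ.Met
open scoped NNReal ENNReal

noncomputable section

namespace Pool.Agent.Lib.MP_0d9445_pr.AS

open CR PPP Walk Cell

variable {S O : Set ℂ}

theorem mem_vorS {d : Met} {Y : Set ℂ} (h : NearGeo S (Function.curry d)) (hY : Y ⊆ S) :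
    ∀ x ∈ (vorS S d Y).V, x ∈ (vorS S d Y).H x :=
  fun _ hx => h.self_mem_cell hY (hY hx)

theorem Dom_csq_subset {y y' : ℂ} {r r' : ℝ} (hr : 0 < r) (h : osq y r ⊆ osq y' r') :
    csq y r ⊆ csq y' r' := by
  intro z hz
  have hc : Continuous fun t : ℝ => y + (t : ℂ) * (z - y) := by fun_prop
  have h1 : Tendsto (fun t : ℝ => y + (t : ℂ) * (z - y)) (𝓝[<] 1) (𝓝 z) := by
    have := (hc.tendsto 1).mono_left (nhdsWithin_le_nhds (s := Iio 1))
    simpa using this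
  refine (CR.isClosed_csq y' r').mem_of_tendsto h1 ?_
  filter_upwards [Ioo_mem_nhdsLT (zero_lt_one' ℝ)] with t ht
  refine osq_subset_csq _ _ (h ⟨?_, ?_⟩)
  · have e : (y + (t : ℂ) * (z - y)).re - y.re = t * (z.re - y.re) := by simp
    rw [e, abs_mul, abs_of_pos ht.1]
    nlinarith [hz.1, ht.1, ht.2]
  · have e : (y + (t : ℂ) * (z - y)).im - y.im = t * (z.im - y.im) := by simp
    rw [e, abs_mul, abs_of_pos ht.1]
    nlinarith [hz.2, ht.1, ht.2]

theorem dom_tpat {d : Met} {Y : Set ℂ} {W : Sq} (h : NearGeo S (Function.curry d)) (hY : Y ⊆ S)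
    (hW : W.c ⊆ S) : Dom (vorS S d Y) (tpat W d Y) W.o := by
  refine ⟨fun n v hB x hx => ?_, mem_vorS h hY, fun _ hx => hx⟩
  have hS : csq (ctr n v) (5 * sc n) ⊆ S :=
    (Dom_csq_subset (by linarith [sc_pos n]) hB.1).trans hW
  have hP : Y ∩ W.o ∩ ann n v ⊆ Y := fun _ hy => hy.1.1
  exact ⟨blk_cell_subset h hS le_rfl hB.2 hP, blk_cell_disjoint h hS le_rfl hB.2 hP (hY hx)⟩

theorem csq_eq_sqC (y : ℂ) (r : ℝ) : csq y r = sqC y r := Set.ext fun _ => D2.mem_csq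

theorem osq_eq_sqO (y : ℂ) (r : ℝ) : osq y r = sqO y r := Set.ext fun _ => D2.mem_osq

/-- a dyadic box as a box of the walk layer -/
theorem box_eq (n : ℕ) (v : ℤ × ℤ) :
    CR.box n v = Walk.box ⟨sc n * v.1, sc n * v.2⟩ (sc n) := by
  ext z
  simp only [CR.box, Walk.box, mem_ofPred_eq, mul_add, mul_one]

/-- two windows that contain the cells of the centres in `A` give the same net on `A` -/
theorem sameOn_toFC {C : Cells} {K K' A : Set ℂ} (hm : ∀ x ∈ C.V, x ∈ C.H x)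
    (hK : {x | x ∈ C.V ∧ (C.H x ∩ K).Nonempty}.Finite)
    (hK' : {x | x ∈ C.V ∧ (C.H x ∩ K').Nonempty}.Finite)
    (hA : ∀ x ∈ C.V, x ∈ A → C.H x ⊆ K ∧ C.H x ⊆ K') : SameOn (C.toFC K) (C.toFC K') A := by
  have hv : ∀ x ∈ A, x ∈ (C.toFC K).V ↔ x ∈ (C.toFC K').V := fun x hx => by
    rw [mem_toFC hK, mem_toFC hK']
    exact ⟨fun h => ⟨h.1, x, hm x h.1, (hA x h.1 hx).2 (hm x h.1)⟩,
      fun h => ⟨h.1, x, hm x h.1, (hA x h.1 hx).1 (hm x h.1)⟩⟩
  refine ⟨?_, fun x hx => ?_, fun _ _ => rfl⟩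
  · ext x
    simp only [FC.mem_pts]
    exact and_congr_left fun hx => hv x hx
  · ext y
    rw [FC.mem_N, FC.mem_N, hv x hx, mem_toFC hK, mem_toFC hK', mem_toFC hK']
    constructor
    · rintro ⟨h1, h2, h3, w, w1, w2⟩
      exact ⟨⟨h1.1, w, w2, (hA x h2.1 hx).2 w1⟩, h2, h3, w, w1, w2⟩
    · rintro ⟨h1, h2, h3, w, w1, w2⟩
      exact ⟨⟨h1.1, w, w2, (hA x h2.1 hx).1 w1⟩, h2, h3, w, w1, w2⟩

theorem Dom_cell_subset {C : ℕ → Cells} (h : NiceIn O C)
    (hm : ∀ n, ∀ x ∈ (C n).V, x ∈ (C n).H x) {K A : Set ℂ} (hK : IsCompact K) (hKO : K ⊆ O)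
    (hA : closure A ⊆ interior K) :
    ∀ᶠ n in atTop, {x | x ∈ (C n).V ∧ ((C n).H x ∩ K).Nonempty}.Finite ∧
      ∀ x ∈ (C n).V, x ∈ A → (C n).H x ⊆ K := by
  have hc : IsCompact (closure A) :=
    hK.of_isClosed_subset isClosed_closure (hA.trans interior_subset)
  obtain ⟨δ, hδ, hs⟩ := hc.exists_cthickening_subset_open isOpen_interior hA
  filter_upwards [h K hK hKO δ hδ] with n hn
  refine ⟨hn.1, fun x hx hxA w hw => ?_⟩
  have hxV : x ∈ ((C n).toFC K).V :=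
    (mem_toFC hn.1).2 ⟨hx, x, hm n x hx, interior_subset (hA (subset_closure hxA))⟩
  exact interior_subset (hs (Metric.mem_cthickening_of_dist_le w x δ _ (subset_closure hxA)
    (hn.2.dist_le hxV hw (hm n x hx))))

/-- along a nice sequence the nets of two compact windows agree on a compact set inside both -/
theorem NiceIn.sameOn {C : ℕ → Cells} (h : NiceIn O C) (hm : ∀ n, ∀ x ∈ (C n).V, x ∈ (C n).H x)
    {K K' A : Set ℂ} (hK : IsCompact K) (hKO : K ⊆ O) (hK' : IsCompact K') (hKO' : K' ⊆ O)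
    (hA : closure A ⊆ interior K) (hA' : closure A ⊆ interior K') :
    ∀ᶠ n in atTop, SameOn ((C n).toFC K) ((C n).toFC K') A := by
  filter_upwards [Dom_cell_subset h hm hK hKO hA, Dom_cell_subset h hm hK' hKO' hA'] with n a b
  exact sameOn_toFC (hm n) a.1 b.1 fun x hx hxA => ⟨a.2 x hx hxA, b.2 x hx hxA⟩

theorem Dom_sc_tendsto : Tendsto sc atTop (𝓝 0) :=
  tendsto_pow_atTop_nhds_zero_of_lt_one (by norm_num) (by norm_num)

/-- a compact subset of `O` is covered by inner boxes of every large level -/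
theorem inner_of_compact {K : Set ℂ} (hO : IsOpen O) (hK : IsCompact K) (hKO : K ⊆ O) :
    ∀ᶠ n in atTop, ∀ z ∈ K, Inner O n (idx n z) := by
  obtain ⟨δ, hδ, hs⟩ := hK.exists_cthickening_subset_open hO hKO
  filter_upwards [Dom_sc_tendsto.eventually (gt_mem_nhds (by positivity : (0 : ℝ) < δ / 5))]
    with n hn z hz w hw
  refine hs (Metric.mem_cthickening_of_dist_le w z δ _ hz ?_)
  have h1 : sn (ctr n (idx n z)) w ≤ 2 * sc n := D2.mem_csq.1 hw
  have h2 := D2.sn_ctr n z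
  have h3 := sn_triangle z (ctr n (idx n z)) w
  rw [sn_comm z (ctr n (idx n z))] at h3
  linarith [dist_le_sn z w]

theorem finite_idx {K : Set ℂ} (hK : Bornology.IsBounded K) (n : ℕ) :
    (idx n '' K).Finite := by
  obtain ⟨r, hr⟩ := hK.subset_closedBall 0
  obtain ⟨R, hR⟩ := exists_nat_ge (r / sc n)
  rw [div_le_iff₀ (sc_pos n)] at hR
  refine (nbh R (idx n 0)).finite_toSet.subset ?_
  rintro _ ⟨z, hz, rfl⟩
  exact idx_mem_nbh (D2.mem_csq.2 ((sn_le_dist 0 z).trans ((hr hz).trans hR)))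

/-- the base boxes of the window of an inner box -/
theorem win_cov (n : ℕ) (v : ℤ × ℤ) {m : ℕ} (hm : 7 ≤ m) {w : ℤ × ℤ} (hw : w ∈ CR.cov m v) :
    Metric.ball (ctr (n + m) w) (48 * sc (n + m)) ⊆ (WQ n v).o :=
  (reg_cov_subset hm hw).trans (reg_mono n v (by norm_num : (3 / 2 : ℝ) ≤ 2))

end Pool.Agent.Lib.MP_0d9445_pr.AS
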