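import Pool.Agent.Lib.MP_0d9445_pr.AS.LW
import Pool.Agent.Lib.MP_0d9445_pr.AS.Dom

/-! The degree law of a box in terms of the full degree sum. -/

open MeasureTheory ProbabilityTheory Set Filter Topology Real LQ.Met
open scoped NNReal ENNReal

noncomputable section

namespace Pool.Agent.Lib.MP_0d9445_pr.AS

open CR PPP Walk Cell

variable {Ω : Type} [MeasurableSpace Ω]

theorem piS_eq_piT {C : Cells} {a : Pat} {W : Set ℂ} (h : Dom C a W) (hf : (C.V ∩ W).Finite)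
    {n : ℕ} {v : ℤ × ℤ} (hW : reg n v 2 ⊆ W) (hB : ∀ q ∈ CR.cov 7 v, a.B (n + 7) q) :
    piS C (CR.box n v) = ENNReal.ofReal (piT C n v) := by
  have h0 := sc_pos n
  have h7 : sc (n + 7) = sc n / 128 := by
    rw [sc_add]
    ring
  have hs : Shut a (n + 7) (csq (ctr n v) (sc n)) := fun z hz =>
    ⟨n + 7, le_rfl, hB _ (idx_mem_cov (by norm_num) hz)⟩
  refine piS_eq h.mem (hf.subset fun x hx => ⟨hx.1, hW ?_⟩) fun x hx w hw => ?_
  · obtain ⟨z, z1, z2⟩ := hx.2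
    have h1 := D2.mem_osq.1 (h.centre_near hs hx.1 z2 z1)
    have h2 := D2.mem_csq.1 z2
    have h3 := sn_triangle (ctr n v) z x
    exact D2.mem_reg.2 (by linarith)
  · have h2 := D2.mem_csq.1 (box_subset_csq n v hx.2)
    have h1 := D2.mem_osq.1 (h.cell_subset hs hx.1 (D2.mem_csq.2 (by linarith)) hw)
    have h3 := sn_triangle (ctr n v) x w
    exact D2.mem_csq.2 (by linarith)

theorem not_degBad_of_abs {C : Cells} {μ : Measure ℂ} {M η t : ℝ} {A : Set ℂ} (hM : 0 < M)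
    (ht : 0 ≤ t) (hA : μ A < ∞) (he : piS C A = ENNReal.ofReal t)
    (h : |t / M - (μ A).toReal| ≤ η) : ¬ degBad C μ M η A := by
  have hη : 0 ≤ η := (abs_nonneg _).trans h
  have hm : 0 ≤ (μ A).toReal := ENNReal.toReal_nonneg
  obtain ⟨h1, h2⟩ := abs_le.1 h
  have e : t = M * (t / M) := by field_simp
  rw [degBad, not_not, he, ← ENNReal.ofReal_toReal hA.ne, ← ENNReal.ofReal_add hm hη,
    ← ENNReal.ofReal_mul hM.le, ← ENNReal.ofReal_mul hM.le, ← ENNReal.ofReal_mul hM.le,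
    ← ENNReal.ofReal_add ht (by positivity)]
  exact ⟨ENNReal.ofReal_le_ofReal (by nlinarith), ENNReal.ofReal_le_ofReal (by nlinarith)⟩

theorem LW.OK.off {w : LW Ω} {P : Measure Ω} {C : ℝ≥0 → Ω → Cells} {M : ℝ≥0 → ℝ} {J : ℝ≥0 → ℕ}
    {μ : Ω → Measure ℂ} (hw : w.OK P C M J) (hM : ∀ᶠ l in atTop, 0 < M l) {n : ℕ} {v : ℤ × ℤ}
    (hin : w.In n v) (hfin : ∀ᵐ ω ∂P, μ ω (CR.box n v) < ∞) {η : ℝ}
    (h : Tendsto (fun l => P {ω | η < |piT (C l ω) n v / M l - (μ ω (CR.box n v)).toReal|})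
      atTop (𝓝 0)) :
    VanL P fun l => w.G ∩ {ω | degBad (C l ω) (μ ω) (M l) η (CR.box n v)} := by
  have h1 : Tendsto (fun l => ∑ q ∈ CR.cov 7 v, P (w.G ∩ {ω | w.a l ω ∈ badB (n + 7) q}))
      atTop (𝓝 0) := by
    have := tendsto_finsetSum (CR.cov 7 v) fun q hq =>
      hw.hB (n + 7) q ((sub_cov (by norm_num) hq).ball_subset.trans hin)
    simpa using this
  have h2 := h.add h1
  rw [add_zero] at h2
  refine tendsto_of_tendsto_of_tendsto_of_le_of_le' tendsto_const_nhds h2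
    (Eventually.of_forall fun _ => zero_le) (hM.mono fun l hl => ?_)
  refine le_trans (measure_mono_ae ?_) ((measure_union_le _ _).trans
    (add_le_add_right (measure_biUnion_finset_le _ _) _))
  filter_upwards [hw.dom l, hfin] with ω h3 h4 h5
  by_contra hc
  have hc' := not_or.1 hc
  obtain ⟨h6, h7, -⟩ := h3 h5.1
  have hB : ∀ q ∈ CR.cov 7 v, (w.a l ω).B (n + 7) q := fun q hq => by
    by_contra hq'
    exact hc'.2 (mem_iUnion₂.2 ⟨q, hq, h5.1, hq'⟩)
  exact not_degBad_of_abs hl (Finset.sum_nonneg fun x _ => EnvDefs_deg_nonneg _ x) h4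
    (piS_eq_piT h6 h7 ((reg_subset_ball n v (by norm_num)).trans hin) hB) (not_lt.1 hc'.1) h5.2

end Pool.Agent.Lib.MP_0d9445_pr.AS
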