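import Pool.Agent.Lib.MP_0d9445_pr.AS.Defs

/-! The area measure of the surface. -/

open MeasureTheory ProbabilityTheory Set Filter Topology Real LQ.Met
open scoped NNReal ENNReal

noncomputable section

namespace Pool.Agent.Lib.MP_0d9445_pr.AS

open CR PPP Walk Cell

variable {Ω : Type} [MeasurableSpace Ω] {M : Model} {P : Measure Ω} {S O N : Set ℂ}
  {s : Ω → Cf} {Y : ℝ≥0 → Ω → Set ℂ}

/-- two-sided comparison of two measures in an open set -/
def measOK_Cmp (μ ν : Measure ℂ) (V : Set ℂ) : Prop :=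
  ∃ a b : ℝ, 0 < a ∧ 0 < b ∧ ENNReal.ofReal a • ν.restrict V ≤ μ.restrict V ∧
    μ.restrict V ≤ ENNReal.ofReal b • ν.restrict V

theorem measOK_cover (hO : IsOpen O) : ∃ T : Set Sq, T.Countable ∧ (∀ W ∈ T, W.c ⊆ O) ∧
    ∀ z ∈ O, ∃ W ∈ T, z ∈ W.o := by
  obtain ⟨T, h1, h2⟩ := TopologicalSpace.isOpen_iUnion_countable
    (fun W : {W : Sq // W.c ⊆ O} => W.1.o) fun W => isOpen_osq _ _
  refine ⟨Subtype.val '' T, h1.image _, ?_, fun z hz => ?_⟩
  · rintro _ ⟨W, -, rfl⟩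
    exact W.2
  · obtain ⟨ε, hε, h⟩ := Metric.isOpen_iff.mp hO z hz
    have h3 : Sq.c (z, ε / 3) ⊆ O := fun w hw => h (by
      rw [mem_ball_iff_norm]
      have h4 := Complex.norm_le_abs_re_add_abs_im (w - z)
      have h5 := hw.1
      have h6 := hw.2
      simp only [Complex.sub_re, Complex.sub_im] at h4 h5 h6
      linarith)
    have h7 : z ∈ ⋃ W : {W : Sq // W.c ⊆ O}, W.1.o :=
      mem_iUnion.mpr ⟨⟨(z, ε / 3), h3⟩, by simp [osq, hε]⟩
    rw [← h2] at h7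
    obtain ⟨W, h8, h9⟩ := mem_iUnion₂.mp h7
    exact ⟨W.1, mem_image_of_mem _ h8, h9⟩

theorem measOK_up {μ ν : Measure ℂ} {V B : Set ℂ} {b : ℝ≥0∞} (h : μ.restrict V ≤ b • ν.restrict V)
    (hB : MeasurableSet B) : μ (B ∩ V) ≤ b * ν B := by
  rw [← Measure.restrict_apply hB]
  refine (Measure.le_iff'.mp h B).trans ?_
  rw [Measure.smul_apply, smul_eq_mul]
  gcongr
  exact Measure.restrict_le_self

theorem measOK_down {μ ν : Measure ℂ} {V B : Set ℂ} {a : ℝ≥0∞}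
    (h : a • ν.restrict V ≤ μ.restrict V) (hB : MeasurableSet B) (hV : B ⊆ V) : a * ν B ≤ μ B := by
  have h1 := Measure.le_iff'.mp h B
  rwa [Measure.smul_apply, smul_eq_mul, Measure.restrict_apply hB, Measure.restrict_apply hB,
    inter_eq_left.mpr hV] at h1

theorem measOK_of {μ : Measure ℂ} {T : Set Sq} (hT : T.Countable) (hc : ∀ z ∈ O, ∃ W ∈ T, z ∈ W.o)
    (h : ∀ W ∈ T, ∃ ν, MeasOK ν univ ∧ measOK_Cmp μ ν W.o) : MeasOK μ O := by
  refine ⟨fun K hK hKO => ?_, fun U hU hUO ⟨z, hz⟩ h0 => ?_, ?_⟩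
  · have key : μ K < ⊤ ∧ ∃ C α r₀ : ℝ, 0 ≤ C ∧ 0 < α ∧ 0 < r₀ ∧ r₀ ≤ 1 ∧ ∀ x ∈ K, ∀ r, 0 < r →
        r ≤ r₀ → μ (Metric.ball x r ∩ K) ≤ ENNReal.ofReal (C * r ^ α) := by
      refine hK.induction_on (p := fun B => μ B < ⊤ ∧ ∃ C α r₀ : ℝ, 0 ≤ C ∧ 0 < α ∧ 0 < r₀ ∧
        r₀ ≤ 1 ∧ ∀ x ∈ K, ∀ r, 0 < r → r ≤ r₀ → μ (Metric.ball x r ∩ B) ≤
          ENNReal.ofReal (C * r ^ α)) ⟨by simp, 0, 1, 1, le_rfl, one_pos, one_pos, le_rfl, by simp⟩
        ?_ ?_ fun z hz => ?_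
      · rintro B B' hB ⟨h1, C, α, r₀, h2, h3, h4, h5, h6⟩
        exact ⟨(measure_mono hB).trans_lt h1, C, α, r₀, h2, h3, h4, h5, fun x hx r h7 h8 =>
          (measure_mono (inter_subset_inter_right _ hB)).trans (h6 x hx r h7 h8)⟩
      · rintro B B' ⟨h1, C, α, r₀, h2, h3, h4, h5, h6⟩ ⟨g1, C', α', r₀', g2, g3, g4, -, g6⟩
        refine ⟨(measure_union_le _ _).trans_lt (ENNReal.add_lt_top.mpr ⟨h1, g1⟩), C + C',
          min α α', min r₀ r₀', add_nonneg h2 g2, lt_min h3 g3, lt_min h4 g4,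
          (min_le_left _ _).trans h5, fun x hx r h7 h8 => ?_⟩
        have h9 : r ≤ 1 := h8.trans ((min_le_left _ _).trans h5)
        rw [inter_union_distrib_left, add_mul,
          ENNReal.ofReal_add (by positivity) (by positivity)]
        refine (measure_union_le _ _).trans (add_le_add
          ((h6 x hx r h7 (h8.trans (min_le_left _ _))).trans (ENNReal.ofReal_le_ofReal ?_))
          ((g6 x hx r h7 (h8.trans (min_le_right _ _))).trans (ENNReal.ofReal_le_ofReal ?_)))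
        · exact mul_le_mul_of_nonneg_left (rpow_le_rpow_of_exponent_ge h7 h9 (min_le_left _ _)) h2
        · exact mul_le_mul_of_nonneg_left (rpow_le_rpow_of_exponent_ge h7 h9 (min_le_right _ _)) g2
      · obtain ⟨W, h1, h2⟩ := hc z (hKO hz)
        obtain ⟨ν, h3, a, b, -, hb, -, h4⟩ := h W h1
        obtain ⟨h5, C, α, r₀, h6, h7, h8⟩ := h3.frost K hK (subset_univ _)
        refine ⟨K ∩ W.o, inter_mem_nhdsWithin _ ((isOpen_osq _ _).mem_nhds h2),
          (measOK_up h4 hK.measurableSet).trans_lt (ENNReal.mul_lt_top ENNReal.ofReal_lt_top h5),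
          b * max C 0, α, min r₀ 1, by positivity, h6, lt_min h7 one_pos, min_le_right _ _,
          fun x hx r h9 h10 => ?_⟩
        rw [← inter_assoc, mul_assoc, ENNReal.ofReal_mul hb.le]
        refine (measOK_up h4 (measurableSet_ball.inter hK.measurableSet)).trans ?_
        gcongr
        refine (h8 x hx r h9 (h10.trans (min_le_left _ _))).trans (ENNReal.ofReal_le_ofReal ?_)
        gcongr
        exact le_max_left _ _
    obtain ⟨h1, C, α, r₀, -, h2, h3, -, h4⟩ := key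
    exact ⟨h1, C, α, r₀, h2, h3, h4⟩
  · obtain ⟨W, h1, h2⟩ := hc z (hUO hz)
    obtain ⟨ν, h3, a, b, ha, -, h4, -⟩ := h W h1
    have h5 : IsOpen (U ∩ W.o) := hU.inter (isOpen_osq _ _)
    have h6 := (measOK_down h4 h5.measurableSet inter_subset_right).trans
      (measure_mono inter_subset_left)
    rw [h0, nonpos_iff_eq_zero, mul_eq_zero] at h6
    exact h6.elim (ENNReal.ofReal_pos.mpr ha).ne' (h3.pos _ h5 (subset_univ _) ⟨z, hz, h2⟩)
  · choose! ν h1 h2 using h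
    filter_upwards [(ae_ball_iff hT).mpr fun W hW => (h1 W hW).low] with y hy hyO
    obtain ⟨W, h3, h4⟩ := hc y hyO
    obtain ⟨c, β, h5, h6⟩ := hy W h3 (mem_univ _)
    obtain ⟨a, b, ha, -, h7, -⟩ := h2 W h3
    obtain ⟨δ, hδ, h8⟩ := Metric.isOpen_iff.mp (isOpen_osq W.1 W.2) y h4
    refine ⟨a * c, β, mul_pos ha h5, fun ε hε => ?_⟩
    obtain ⟨r, g1, g2, g3⟩ := h6 (min ε δ) (lt_min hε hδ)
    refine ⟨r, g1, g2.trans_le (min_le_left _ _), le_trans ?_ (measOK_down h7 measurableSet_ball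
      ((Metric.ball_subset_ball (g2.le.trans (min_le_right _ _))).trans h8))⟩
    rw [mul_assoc, ENNReal.ofReal_mul ha.le]
    gcongr

theorem measOK_ae (hS : Surf M P S O N s Y) {p : Measure ℂ → Prop} (hp : ∀ᵐ c ∂M.ref0, p c.2)
    {T : Set Sq} (hT : T.Countable) (hO : ∀ W ∈ T, W.c ⊆ O) :
    ∀ᵐ ω ∂P, ∀ W ∈ T, ∃ ν, p ν ∧ measOK_Cmp (s ω).2 ν W.o := by
  refine (ae_ball_iff hT).mpr fun W hW => ?_
  obtain ⟨c, h1, h2, h3⟩ := hS.close W (hO W hW)
  filter_upwards [h3, ae_of_ae_map h1.aemeasurable (h2.ae_le hp)] with ω ⟨k, h4⟩ h5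
  exact ⟨(c ω).2, h5, _, _, exp_pos _, exp_pos _, h4.2.1, h4.2.2⟩

theorem Surf.measOK (R : RefOK M) (hS : Surf M P S O N s Y) :
    ∀ᵐ ω ∂P, MeasOK (s ω).2 O := by
  obtain ⟨T, h1, h2, h3⟩ := measOK_cover hS.openO
  exact (measOK_ae hS (p := fun ν => MeasOK ν univ) R.ok h1 h2).mono fun ω => measOK_of h1 h3

theorem Surf.null (R : RefOK M) (hS : Surf M P S O N s Y) {A : Set ℂ} (hA : MeasurableSet A)
    (h0 : volume A = 0) : ∀ᵐ ω ∂P, (s ω).2 (A ∩ O) = 0 := by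
  obtain ⟨T, h1, h2, h3⟩ := measOK_cover hS.openO
  filter_upwards [measOK_ae hS (p := fun ν => ν A = 0) (R.null A hA h0) h1 h2] with ω h
  refine measure_mono_null (t := ⋃ W ∈ T, A ∩ W.o) (fun z hz => ?_)
    ((measure_biUnion_null_iff h1).mpr fun W hW => ?_)
  · obtain ⟨W, h4, h5⟩ := h3 z hz.2
    exact mem_biUnion h4 ⟨hz.1, h5⟩
  · obtain ⟨ν, h4, a, b, -, -, -, h5⟩ := h W hW
    simpa [h4] using measOK_up h5 hA

end Pool.Agent.Lib.MP_0d9445_pr.AS
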