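import Pool.Agent.Lib.MP_0d9445_pr.AS.Win
import Pool.Agent.Lib.MP_0d9445_pr.AS.Deg
import Pool.Agent.Lib.MP_0d9445_pr.AS.MeasOK
import Pool.Agent.Lib.MP_0d9445_pr.AS.Crude

/-! Every point has a good window. -/

open MeasureTheory ProbabilityTheory Set Filter Topology Real LQ.Met
open scoped NNReal ENNReal

noncomputable section

namespace Pool.Agent.Lib.MP_0d9445_pr.AS

open CR PPP Walk Cell

variable {Ω : Type} [MeasurableSpace Ω] {M : Model} {P : Measure Ω} {S O N : Set ℂ}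
  {s : Ω → Cf} {Y : ℝ≥0 → Ω → Set ℂ} {A κ : ℝ → ℝ}

theorem tendsto_kap (hκ : ∀ c, 1 / 2 ≤ κ c) (γ : ℝ) :
    Tendsto (fun l : ℝ≥0 => κ (ht γ l) * l) atTop atTop := by
  refine tendsto_atTop_mono (f := fun l : ℝ≥0 => 1 / 2 * (l : ℝ))
    (fun l => mul_le_mul_of_nonneg_right (hκ _) l.2) ?_
  exact (NNReal.tendsto_coe_atTop.2 tendsto_id).const_mul_atTop (by norm_num)

theorem box_subset_ball (m : ℕ) (v : ℤ × ℤ) :
    csq (ctr m v) (sc m) ⊆ Metric.ball (ctr m v) (48 * sc m) := fun z hz => by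
  have h1 : sn (ctr m v) z ≤ sc m := D2.mem_csq.1 hz
  have h2 := dist_le_sn (ctr m v) z
  have h3 := sc_pos m
  exact Metric.mem_ball.2 (by linarith)

/-- the degree law in a window of the surface -/
theorem Surf.deg (R : RefOK M) (hL : LocalLaw M A κ) (hS : Surf M P S O N s Y) {W : Sq}
    (hW : W.c ⊆ O) {G : Set Ω} {d : ℕ} {B : ℝ≥0} {α : ℝ} {J : ℝ≥0 → ℕ}
    (hw : (lw W G d B α s Y).OK P (cells S s Y) (fun l => κ (ht M.γ l) * l) J)
    (m : ℕ) (v : ℤ × ℤ) (h : (lw W G d B α s Y).In m v) (η : ℝ) (hη : 0 < η) :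
    VanL P fun l => G ∩
      {ω | degBad (cells S s Y l ω) (s ω).2 (κ (ht M.γ l) * l) η (CR.box m v)} := by
  have := hS.prob
  have hWO : W.o ⊆ O := (osq_subset_csq _ _).trans hW
  have hM := tendsto_kap hL.2.1 M.γ
  refine hw.deg_law (μ := fun ω => (s ω).2) (measurable_snd.comp hS.meas) hS.closedN hS.nullN hM
    ?_ (fun z hz => ?_) m v h η hη
  · filter_upwards [hS.measOK R, hS.null R hS.closedN.measurableSet hS.nullN] with ω h1 h2 _
    exact ⟨measure_mono_null (inter_subset_inter_right _ hWO) h2,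
      fun K hK hKW => (h1.frost K hK (hKW.trans hWO)).1⟩
  · obtain ⟨W', z1, z2, z3⟩ := hS.ac z ⟨hWO hz.1, hz.2⟩
    refine ⟨W'.o ∩ W.o, ((isOpen_osq _ _).inter (isOpen_osq _ _)).mem_nhds ⟨z1, hz.1⟩,
      fun n q hq η hη => ?_⟩
    have hg : GoodBox M P s O n q := ⟨W', ((reg_subset_ball n q (by norm_num)).trans hq).trans
      inter_subset_left, z2, z3⟩
    refine hw.off (μ := fun ω => (s ω).2) (hM.eventually_gt_atTop 0) (hq.trans inter_subset_right)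
      ?_ ((hL.2.2 Ω P S O N s Y hS n q hg).2 η hη)
    filter_upwards [hS.measOK R] with ω h1
    refine (measure_mono ?_).trans_lt (h1.frost _ (isCompact_csq (ctr n q) (sc n))
      ((box_subset_ball n q).trans (hq.trans (inter_subset_right.trans hWO)))).1
    exact fun w hw => D2.mem_csq.2 ((D2.mem_csq.1 (box_subset_csq n q hw)).trans
      (by linarith [sc_pos n]))

/-- the local degree law -/
def DegIn (O : Set ℂ) (μ : Measure ℂ) (C : ℕ → Cells) (Mn : ℕ → ℝ) : Prop :=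
  ∀ z ∈ O, ∃ U ∈ 𝓝 z, ∀ m v, Metric.ball (ctr m v) (48 * sc m) ⊆ U →
    Tendsto (fun n => piS (C n) (CR.box m v) / ENNReal.ofReal (Mn n)) atTop (𝓝 (μ (CR.box m v)))

theorem Surf.cover (F : M.All) (R : RefOK M) (hL : LocalLaw M A κ) (hS : Surf M P S O N s Y) :
    ∃ κ₀ : ℝ, 0 < κ₀ ∧ Likely P fun ω l =>
      Cover O (fun i => cells S s Y (l i) ω) (s ω).2 (fun i => κ (ht M.γ (l i)) * l i)
        (fun i => ⌈κ₀ * ht M.γ (l i)⌉₊) ∧
      DegIn O (s ω).2 (fun i => cells S s Y (l i) ω) fun i => κ (ht M.γ (l i)) * l i := by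
  obtain ⟨κ₀, h0, H⟩ := hS.win F hL.2.1
  refine ⟨κ₀, h0, ?_⟩
  have key : ∀ q : ℕ × ℤ × ℤ, Likely P fun ω l => Inner O q.1 q.2 → ∃ w : WD,
      w.W = (WQ q.1 q.2).o ∧
      w.OK (fun i => cells S s Y (l i) ω) (s ω).2 (fun i => κ (ht M.γ (l i)) * l i)
        (fun i => ⌈κ₀ * ht M.γ (l i)⌉₊) ∧
      ∀ m v, w.In m v → ∀ k : ℕ, ∀ᶠ i in atTop, ¬ degBad (cells S s Y (l i) ω) (s ω).2
        (κ (ht M.γ (l i)) * l i) (1 / (k + 1)) (CR.box m v) := fun q => Likely.imp fun hq => by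
    obtain ⟨G, hG, hk⟩ := H _ hq (crude F hS hq)
    choose d B α hw using hk
    refine (Likely.of_exhaust hG fun k => (hw k).likely (μ := fun ω => (s ω).2)
      (hS.deg R hL hq (hw k))).mono fun ω l _ ⟨k, _, a⟩ => ⟨_, rfl, a⟩
  refine (Likely.all key).mono fun ω l hl a => ?_
  have hz : ∀ z ∈ O, ∃ n, Inner O n (idx n z) ∧ (WQ n (idx n z)).o ∈ 𝓝 z := fun z hz => by
    obtain ⟨n, hn⟩ := (inner_of_compact hS.openO isCompact_singleton
      (singleton_subset_iff.2 hz)).exists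
    refine ⟨n, hn z rfl, (isOpen_osq _ _).mem_nhds (D2.mem_osq.2 ?_)⟩
    have h1 := D2.sn_ctr n z
    have h2 := sc_pos n
    simp only [WQ]
    linarith
  constructor
  · intro z hzO
    obtain ⟨n, h1, h2⟩ := hz z hzO
    obtain ⟨w, e, hw, -⟩ := a (n, idx n z) h1
    exact ⟨w, hw, e ▸ h2⟩
  · intro z hzO
    obtain ⟨n, h1, h2⟩ := hz z hzO
    obtain ⟨w, e, -, hw⟩ := a (n, idx n z) h1
    exact ⟨w.W, e ▸ h2, fun m v hv =>
      tendsto_of_not_degBad ((tendsto_kap hL.2.1 M.γ).comp hl) (hw m v hv)⟩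

end Pool.Agent.Lib.MP_0d9445_pr.AS
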