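import Mathlib

/-! Properties that hold almost surely along a subsequence of every sequence tending to infinity. -/

open MeasureTheory Set Filter Topology
open scoped NNReal ENNReal

namespace Pool.Agent.Lib.MP_0d9445_pr.AS

variable {Ω : Type} [MeasurableSpace Ω] {P : Measure Ω} {p q : Ω → (ℕ → ℝ≥0) → Prop}

/-- `p ω l` holds as soon as `ω` eventually avoids a family of unlikely events along `l`. -/
def Likely (P : Measure Ω) (p : Ω → (ℕ → ℝ≥0) → Prop) : Prop :=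
  ∃ (E : ℕ → ℝ≥0 → Set Ω) (ε : ℕ → ℝ≥0∞), ∑' i, ε i ≠ ∞ ∧
    (∀ i, ∀ᶠ l in atTop, P (E i l) ≤ ε i) ∧
    ∀ᵐ ω ∂P, ∀ l : ℕ → ℝ≥0, Tendsto l atTop atTop → (∀ᶠ i in atTop, ω ∉ E i (l i)) → p ω l

theorem tsum_half_ne_top : ∑' i : ℕ, (2⁻¹ : ℝ≥0∞) ^ i ≠ ∞ := by
  rw [ENNReal.tsum_geometric, ENNReal.one_sub_inv_two, inv_inv]
  exact ENNReal.ofNat_ne_top

theorem half_pow_pos (i : ℕ) : 0 < (2⁻¹ : ℝ≥0∞) ^ i :=
  ENNReal.pow_pos (ENNReal.inv_pos.2 ENNReal.ofNat_ne_top) i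

namespace Likely

theorem mono_ae (h : Likely P p)
    (hpq : ∀ᵐ ω ∂P, ∀ l : ℕ → ℝ≥0, Tendsto l atTop atTop → p ω l → q ω l) : Likely P q := by
  obtain ⟨E, ε, h1, h2, h3⟩ := h
  refine ⟨E, ε, h1, h2, ?_⟩
  filter_upwards [h3, hpq] with ω a b l hl he using b l hl (a l hl he)

theorem mono (h : Likely P p)
    (hpq : ∀ ω, ∀ l : ℕ → ℝ≥0, Tendsto l atTop atTop → p ω l → q ω l) : Likely P q :=
  h.mono_ae (Eventually.of_forall hpq)

theorem of_ae (h : ∀ᵐ ω ∂P, ∀ l : ℕ → ℝ≥0, Tendsto l atTop atTop → p ω l) : Likely P p :=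
  ⟨fun _ _ => ∅, fun _ => 0, by simp, fun _ => by simp,
    h.mono fun _ a l hl _ => a l hl⟩

/-- events that may depend on the index -/
theorem of_family {E : ℕ → ℝ≥0 → Set Ω} (h : ∀ i, ∀ᶠ l in atTop, P (E i l) ≤ 2⁻¹ ^ i) :
    Likely P fun ω l => ∀ᶠ i in atTop, ω ∉ E i (l i) :=
  ⟨E, _, tsum_half_ne_top, h, Eventually.of_forall fun _ _ _ a => a⟩

theorem of_family' {E : ℕ → ℝ≥0 → Set Ω} (h : ∀ i, Tendsto (fun l => P (E i l)) atTop (𝓝 0)) :
    Likely P fun ω l => ∀ᶠ i in atTop, ω ∉ E i (l i) :=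
  of_family fun i => (h i).eventually (ge_mem_nhds (half_pow_pos i))

theorem of_tendsto {F : ℝ≥0 → Set Ω} (h : Tendsto (fun l => P (F l)) atTop (𝓝 0)) :
    Likely P fun ω l => ∀ᶠ i in atTop, ω ∉ F (l i) :=
  of_family' (E := fun _ => F) fun _ => h

/-- a property that holds almost surely for each fixed parameter -/
theorem of_ae_each {r : ℝ≥0 → Ω → Prop} (h : ∀ l, ∀ᵐ ω ∂P, r l ω) :
    Likely P fun ω l => ∀ᶠ i in atTop, r (l i) ω := by
  have : ∀ l, P {ω | ¬ r l ω} = 0 := h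
  refine (of_tendsto (F := fun l => {ω | ¬ r l ω}) (by simp [this])).mono fun ω l _ a => ?_
  exact a.mono fun i hi => not_not.1 hi

theorem and (h : Likely P p) (h' : Likely P q) : Likely P fun ω l => p ω l ∧ q ω l := by
  obtain ⟨E, ε, h1, h2, h3⟩ := h
  obtain ⟨E', ε', h1', h2', h3'⟩ := h'
  refine ⟨fun i l => E i l ∪ E' i l, fun i => ε i + ε' i, ?_, fun i => ?_, ?_⟩
  · rw [ENNReal.tsum_add]
    exact ENNReal.add_ne_top.2 ⟨h1, h1'⟩
  · filter_upwards [h2 i, h2' i] with l a b using (measure_union_le _ _).trans (add_le_add a b)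
  · filter_upwards [h3, h3'] with ω a b l hl he
    exact ⟨a l hl (he.mono fun i hi h => hi (Or.inl h)),
      b l hl (he.mono fun i hi h => hi (Or.inr h))⟩

theorem all_nat {p : ℕ → Ω → (ℕ → ℝ≥0) → Prop} (h : ∀ k, Likely P (p k)) :
    Likely P fun ω l => ∀ k, p k ω l := by
  classical
  choose E ε h1 h2 h3 using h
  have hN : ∀ k, ∃ N, k ≤ N ∧ ∑' i, ε k (i + N) ≤ 2⁻¹ ^ k := fun k =>
    ((eventually_ge_atTop k).and ((ENNReal.tendsto_sum_nat_add _ (h1 k)).eventually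
      (ge_mem_nhds (half_pow_pos k)))).exists
  choose N hN1 hN2 using hN
  refine ⟨fun i l => ⋃ k ∈ (Finset.range (i + 1)).filter fun k => N k ≤ i, E k i l,
    fun i => ∑' k, if N k ≤ i then ε k i else 0, ?_, fun i => ?_, ?_⟩
  · rw [ENNReal.tsum_comm]
    refine ne_top_of_le_ne_top tsum_half_ne_top (ENNReal.tsum_le_tsum fun k => ?_)
    refine le_trans (le_of_eq ?_) (hN2 k)
    rw [← Summable.sum_add_tsum_nat_add' (k := N k) ENNReal.summable, Finset.sum_eq_zero, zero_add]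
    · exact tsum_congr fun i => if_pos (Nat.le_add_left _ _)
    · exact fun i hi => if_neg (not_le.2 (Finset.mem_range.1 hi))
  · filter_upwards [(Finset.range (i + 1)).eventually_all.2 fun k _ => h2 k i] with l hl
    refine (measure_biUnion_finset_le _ _).trans ?_
    rw [Finset.sum_filter]
    refine le_trans (Finset.sum_le_sum fun k hk => ?_) (ENNReal.sum_le_tsum _)
    split_ifs
    · exact hl k hk
    · exact le_rfl
  · filter_upwards [ae_all_iff.2 h3] with ω a l hl he k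
    refine a k l hl ?_
    filter_upwards [he, eventually_ge_atTop (N k)] with i hi hk h
    exact hi (mem_iUnion₂.2 ⟨k, Finset.mem_filter.2
      ⟨Finset.mem_range.2 (Nat.lt_succ_of_le ((hN1 k).trans hk)), hk⟩, h⟩)

theorem all {ι : Sort*} [Countable ι] {p : ι → Ω → (ℕ → ℝ≥0) → Prop}
    (h : ∀ k, Likely P (p k)) : Likely P fun ω l => ∀ k, p k ω l := by
  rcases isEmpty_or_nonempty ι with h0 | h0
  · exact of_ae (Eventually.of_forall fun _ _ _ k => h0.elim k)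
  · obtain ⟨e, he⟩ := exists_surjective_nat ι
    refine (all_nat fun k => h (e k)).mono fun ω l _ a k => ?_
    obtain ⟨n, rfl⟩ := he k
    exact a n

theorem imp {c : Prop} (h : c → Likely P p) : Likely P fun ω l => c → p ω l := by
  by_cases hc : c
  · exact (h hc).mono fun _ _ _ a _ => a
  · exact of_ae (Eventually.of_forall fun _ _ _ a => (hc a).elim)

/-- exhaustion of the probability space -/
theorem of_exhaust {G : ℕ → Set Ω} (hG : ∀ᵐ ω ∂P, ∃ j, ω ∈ G j)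
    {p : ℕ → Ω → (ℕ → ℝ≥0) → Prop} (h : ∀ j, Likely P fun ω l => ω ∈ G j → p j ω l) :
    Likely P fun ω l => ∃ j, ω ∈ G j ∧ p j ω l :=
  (all_nat h).mono_ae (hG.mono fun _ ⟨j, hj⟩ _ _ a => ⟨j, hj, a j hj⟩)

/-- events that are unlikely on the set `G` -/
theorem of_family_inter {G : Set Ω} {E : ℕ → ℝ≥0 → Set Ω}
    (h : ∀ i, ∀ᶠ l in atTop, P (G ∩ E i l) ≤ 2⁻¹ ^ i) :
    Likely P fun ω l => ω ∈ G → ∀ᶠ i in atTop, ω ∉ E i (l i) :=
  (of_family h).mono fun _ _ _ a hG => a.mono fun _ hi hE => hi ⟨hG, hE⟩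

theorem of_tendsto_inter {G : Set Ω} {F : ℝ≥0 → Set Ω}
    (h : Tendsto (fun l => P (G ∩ F l)) atTop (𝓝 0)) :
    Likely P fun ω l => ω ∈ G → ∀ᶠ i in atTop, ω ∉ F (l i) :=
  (of_tendsto h).mono fun _ _ _ a hG => a.mono fun _ hi hE => hi ⟨hG, hE⟩

/-- convergence in probability -/
theorem of_prob {Z : ℝ≥0 → Ω → ℝ}
    (h : ∀ η : ℝ, 0 < η → Tendsto (fun l => P {ω | η < |Z l ω|}) atTop (𝓝 0)) :
    Likely P fun ω l => Tendsto (fun i => Z (l i) ω) atTop (𝓝 0) := by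
  refine (all_nat fun k => of_tendsto (h (1 / ((k : ℝ) + 1)) (by positivity))).mono
    fun ω l _ a => ?_
  rw [Metric.tendsto_nhds]
  intro ε hε
  obtain ⟨k, hk⟩ := exists_nat_one_div_lt hε
  filter_upwards [a k] with i hi
  rw [Real.dist_eq, sub_zero]
  exact (not_lt.1 hi).trans_lt hk

/-- the subsequence -/
theorem subseq (h : Likely P p) {l : ℕ → ℝ≥0} (hl : Tendsto l atTop atTop) :
    ∃ φ : ℕ → ℕ, StrictMono φ ∧ ∀ᵐ ω ∂P, p ω (fun n => l (φ n)) := by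
  obtain ⟨E, ε, h1, h2, h3⟩ := h
  obtain ⟨φ, hφ, hE⟩ := extraction_forall_of_eventually fun i => hl.eventually (h2 i)
  refine ⟨φ, hφ, ?_⟩
  have := ae_eventually_notMem (μ := P) (s := fun i => E i (l (φ i)))
    (ne_top_of_le_ne_top h1 (ENNReal.tsum_le_tsum hE))
  filter_upwards [h3, this] with ω a b
  exact a _ (hl.comp hφ.tendsto_atTop) b

end Likely

end Pool.Agent.Lib.MP_0d9445_pr.AS
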