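import Pool.Agent.Lib.MP_0d9445_pr.Engine
import Pool.Agent.Lib.MP_0d9445_pr.PPP.BridgeD
import Pool.Agent.Lib.MP_0d9445_pr.Cell.Vor
import Pool.Agent.Lib.MP_0d9445_pr.Walk.Hyp
import Pool.Agent.Lib.MP_0d9445_pr.AS.Likely

/-! Transfer from the model to a surface: definitions and statements. -/

open MeasureTheory ProbabilityTheory Set Filter Topology Real
open scoped NNReal ENNReal

noncomputable section

namespace Pool.Agent.Lib.MP_0d9445_pr.AS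

open CR PPP Walk Cell

/-- Voronoi cells inside the closed set `S` -/
def vorS (S : Set ℂ) (d : Met) (Y : Set ℂ) : Cells :=
  ⟨Y, fun x => cell S (Function.curry d) Y x⟩

/-- the pattern of the true metric and the true points in the window `W` -/
def tpat (W : Sq) (d : Met) (Y : Set ℂ) : Pat := mkPat W 1 d (Y ∩ W.o) (Y ∩ W.o)

/-- the height that corresponds to the intensity `l` -/
def ht (γ : ℝ) (l : ℝ≥0) : ℝ := log l / γ

/-- the cells that meet the closed square `2S` -/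
def net (C : Cells) (n : ℕ) (v : ℤ × ℤ) : FC := C.toFC (csq (ctr n v) (sc n))

/-- minimal energy of a dyadic box -/
def nuT (C : Cells) (n : ℕ) (v : ℤ × ℤ) (p : ℂ) : ℝ := (net C n v).nu (CR.box n v) p

/-- degree sum of a dyadic box -/
def piT (C : Cells) (n : ℕ) (v : ℤ × ℤ) : ℝ :=
  ∑ x ∈ (net C n v).pts (CR.box n v), (net C n v).G.deg x

/-- the window `4S` of a dyadic box -/
def WQ (n : ℕ) (v : ℤ × ℤ) : Sq := (ctr n v, 2 * sc n)

/-- the closed window of the box lies in `O` -/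
def Inner (O : Set ℂ) (n : ℕ) (v : ℤ × ℤ) : Prop := (WQ n v).c ⊆ O

variable {Ω : Type} [MeasurableSpace Ω]

/-- the law of the local data in `W` is absolutely continuous for the reference law -/
def AC (M : Model) (P : Measure Ω) (s : Ω → Cf) (W : Sq) : Prop :=
  ∀ E, MeasurableSet[GG W.o] E → M.ref E = 0 → P (s ⁻¹' E) = 0

/-- the tripled box lies in a square where the surface is absolutely continuous -/
def GoodBox (M : Model) (P : Measure Ω) (s : Ω → Cf) (O : Set ℂ) (n : ℕ) (v : ℤ × ℤ) : Prop :=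
  ∃ W : Sq, reg n v (3 / 2) ⊆ W.o ∧ W.c ⊆ O ∧ AC M P s W

/-- A random surface `s` on the closed set `S` with Poisson points `Y l`, comparable with the
model in the open set `O` and locally absolutely continuous off the null set `N`. -/
structure Surf (M : Model) (P : Measure Ω) (S O N : Set ℂ) (s : Ω → Cf)
    (Y : ℝ≥0 → Ω → Set ℂ) : Prop where
  prob : IsProbabilityMeasure P
  meas : Measurable s
  closedS : IsClosed S
  openO : IsOpen O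
  sub : O ⊆ S
  closedN : IsClosed N
  nullN : volume N = 0
  geo : ∀ᵐ ω ∂P, NearGeo S (Function.curry (s ω).1)
  ptsS : ∀ l, ∀ᵐ ω ∂P, Y l ω ⊆ S
  cox : ∀ (l : ℝ≥0) (W : Sq), W.c ⊆ O → IsCox P s (winInt l W.o) fun ω => Y l ω ∩ W.o
  close : ∀ W : Sq, W.c ⊆ O → ∃ c : Ω → Cf, Measurable c ∧ P.map c ≪ M.ref0 ∧
    ∀ᵐ ω ∂P, ∃ k : ℕ, Close M.ξ M.γ k W (s ω) (c ω)
  ac : ∀ z ∈ O \ N, ∃ W : Sq, z ∈ W.o ∧ W.c ⊆ O ∧ AC M P s W

/-- the cells of the surface at intensity `l` -/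
abbrev cells (S : Set ℂ) (s : Ω → Cf) (Y : ℝ≥0 → Ω → Set ℂ) (l : ℝ≥0) (ω : Ω) : Cells :=
  vorS S (s ω).1 (Y l ω)

/-- the model probability of `B` at height `c` -/
def modP (M : Model) (L : ℝ) (W : Sq) (c : ℝ) (B : Set Xi) : ℝ≥0∞ :=
  ∫⁻ g, M.Phat L W 0 (g + cst c) B ∂M.Ginf

/-- AS2: monotone pattern events that are unlikely in the model are unlikely on the surface -/
def Crude (M : Model) (P : Measure Ω) (s : Ω → Cf) (Y : ℝ≥0 → Ω → Set ℂ) (W : Sq) : Prop :=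
  ∃ G : ℕ → Set Ω, (∀ j, MeasurableSet (G j)) ∧ (∀ᵐ ω ∂P, ∃ j, ω ∈ G j) ∧ ∀ j, ∃ L : ℝ, 0 ≤ L ∧
    ∀ ε : ℝ≥0∞, 0 < ε → ∃ δ : ℝ≥0∞, 0 < δ ∧ ∀ l : ℝ≥0, 0 < l → ∀ E : Set Pat,
      (∀ a b : Pat, a.Le b → a ∈ E → b ∈ E) →
      (∀ L' : ℝ, 0 ≤ L' → MeasurableSet (pat M.ξ L' W ⁻¹' E)) →
      modP M L W (ht M.γ l) (pat M.ξ L W ⁻¹' E) ≤ δ →
      P (G j ∩ {ω | tpat W (s ω).1 (Y l ω) ∈ E}) ≤ ε

/-- the energy of the box is close to `A(c) |p|^2 |S|` -/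
def NuLaw (M : Model) (A : ℝ → ℝ) (P : Measure Ω) (S : Set ℂ) (s : Ω → Cf)
    (Y : ℝ≥0 → Ω → Set ℂ) (n : ℕ) (v : ℤ × ℤ) : Prop :=
  ∀ p ∈ ({1, Complex.I, 1 + Complex.I} : Set ℂ), ∀ η : ℝ, 0 < η →
    Tendsto (fun l => P {ω | η <
      |nuT (cells S s Y l ω) n v p - A (ht M.γ l) * ‖p‖ ^ 2 * sc n ^ 2|}) atTop (𝓝 0)

/-- the degree sum of the box is close to `κ(c) l m(S)` -/
def PiLaw (M : Model) (κ : ℝ → ℝ) (P : Measure Ω) (S : Set ℂ) (s : Ω → Cf)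
    (Y : ℝ≥0 → Ω → Set ℂ) (n : ℕ) (v : ℤ × ℤ) : Prop :=
  ∀ η : ℝ, 0 < η → Tendsto (fun l => P {ω | η <
    |piT (cells S s Y l ω) n v / (κ (ht M.γ l) * l) - ((s ω).2 (CR.box n v)).toReal|})
    atTop (𝓝 0)

/-- AS1: the output of the homogenisation, on every surface -/
def LocalLaw (M : Model) (A κ : ℝ → ℝ) : Prop :=
  (∀ c, 0 < A c) ∧ (∀ c, 1 / 2 ≤ κ c) ∧
    ∀ (Ω : Type) [MeasurableSpace Ω] (P : Measure Ω) (S O N : Set ℂ) (s : Ω → Cf)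
      (Y : ℝ≥0 → Ω → Set ℂ), Surf M P S O N s Y → ∀ n v, GoodBox M P s O n v →
        NuLaw M A P S s Y n v ∧ PiLaw M κ P S s Y n v

/-- the field `nice` of `Env` -/
def NiceIn (O : Set ℂ) (C : ℕ → Cells) : Prop :=
  ∀ K, IsCompact K → K ⊆ O → ∀ ε > 0, ∀ᶠ n in atTop,
    {x | x ∈ (C n).V ∧ ((C n).H x ∩ K).Nonempty}.Finite ∧ ((C n).toFC K).Nice K ε

/-- the field `xy` of `Env` -/
def XYIn (O : Set ℂ) (C : ℕ → Cells) : Prop :=
  ∀ K, IsCompact K → K ⊆ O → ∃ Cst : ℝ, ∀ c r, 0 < r → sqC c r ⊆ K → ∀ᶠ n in atTop,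
    ((C n).toFC K).X (sqC c r) ≤ Cst * r ^ 2 ∧ ((C n).toFC K).Y (sqC c r) ≤ Cst * r ^ 2

/-- the field `green` of `Env`, all vertices good -/
def GreenIn (O : Set ℂ) (C : ℕ → Cells) (Mn : ℕ → ℝ) : Prop :=
  ∀ K, IsCompact K → K ⊆ O → ∀ ε > 0, ∃ δ > 0, ∀ r, 0 < r → r ≤ δ →
    ∀ᶠ n in atTop, ∀ c u, sqC c (8 * r) ⊆ K →
    ((C n).toFC K).G.Sol (((C n).toFC K).inside (sqO c r)) 0
      (fun x => ((C n).toFC K).G.deg x / Mn n) 0 u → ∀ x, u x ≤ ε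

/-- the field `nu` of `Env` -/
def NuIn (O : Set ℂ) (C : ℕ → Cells) (a : ℕ → ℝ) : Prop :=
  ∃ FF : Set (ℂ × ℝ), FF.Countable ∧ ChildClosed FF ∧ volume (O \ Walk.cov FF) = 0 ∧
    ∀ K, IsCompact K → K ⊆ O → ∀ s ∈ FF, closure (Walk.box s.1 s.2) ⊆ interior K →
      ∀ p ∈ ({1, Complex.I, 1 + Complex.I} : Set ℂ),
        Tendsto (fun n => ((C n).toFC K).nu (Walk.box s.1 s.2) p - a n * ‖p‖ ^ 2 * s.2 ^ 2)
          atTop (𝓝 0)

/-- the field `mass` of `Env`, all vertices good -/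
def MassIn (O : Set ℂ) (μ : Measure ℂ) (C : ℕ → Cells) (Mn : ℕ → ℝ) : Prop :=
  ∀ K, IsCompact K → K ⊆ O → ∀ φ : ℂ → ℝ, Continuous φ → tsupport φ ⊆ interior K →
    Tendsto (fun n => (∑ x ∈ ((C n).toFC K).V, ((C n).toFC K).G.deg x * φ x) / Mn n) atTop
      (𝓝 (∫ w, φ w ∂μ))

/-- power lower bound for the mass of discs about `y` along a sequence of radii (the same as
`Walk.LowMass`) -/
def LowAt (μ : Measure ℂ) (y : ℂ) : Prop :=
  ∃ c β : ℝ, 0 < c ∧ ∀ ε > 0, ∃ r, 0 < r ∧ r < ε ∧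
    ENNReal.ofReal (c * r ^ β) ≤ μ (Metric.ball y r)

/-- what is known about the area measure in `O` -/
structure MeasOK (μ : Measure ℂ) (O : Set ℂ) : Prop where
  frost : ∀ K, IsCompact K → K ⊆ O → Frost μ K
  pos : ∀ U, IsOpen U → U ⊆ O → U.Nonempty → μ U ≠ 0
  low : ∀ᵐ y : ℂ, y ∈ O → LowAt μ y

/-- what the module MU gives for the reference law -/
structure RefOK (M : Model) : Prop where
  ok : ∀ᵐ c ∂M.ref0, MeasOK c.2 univ
  null : ∀ N : Set ℂ, MeasurableSet N → volume N = 0 → ∀ᵐ c ∂M.ref0, c.2 N = 0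

end Pool.Agent.Lib.MP_0d9445_pr.AS
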