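import Pool.Agent.Lib.MP_0d9445_pr.AS.Dom
import Pool.Agent.Lib.MP_0d9445_pr.Walk.PfBnd
import Pool.Agent.Lib.MP_0d9445_pr.Walk.PfGeo

/-! From dyadic boxes to the family of squares. -/

open MeasureTheory ProbabilityTheory Set Filter Topology Real LQ.Met
open scoped NNReal ENNReal

noncomputable section

namespace Pool.Agent.Lib.MP_0d9445_pr.AS

open CR PPP Walk Cell

theorem Mass_ctr (n : ℕ) (v : ℤ × ℤ) :
    Walk.ctr ⟨sc n * v.1, sc n * v.2⟩ (sc n) = CR.ctr n v := by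
  refine Complex.ext ?_ ?_
  · rw [PfGeo.ctr_re]
    simp only [CR.ctr]
    ring
  · rw [PfGeo.ctr_im]
    simp only [CR.ctr]
    ring

theorem Mass_sc_succ (n : ℕ) : sc (n + 1) = sc n / 2 := by
  rw [sc_add]
  ring

theorem nuIn {O N : Set ℂ} {C : ℕ → Cells} {a : ℕ → ℝ} (G : ℕ → ℤ × ℤ → Prop)
    (hN0 : volume N = 0) (hG : ∀ n v w, G n v → w ∈ kids 1 v → G (n + 1) w)
    (hGO : ∀ n v, G n v → csq (ctr n v) (sc n) ⊆ O)
    (hc : ∀ z ∈ O \ N, ∃ n, G n (idx n z)) (hm : ∀ n, ∀ x ∈ (C n).V, x ∈ (C n).H x)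
    (hN : NiceIn O C)
    (h : ∀ n v, G n v → ∀ p ∈ ({1, Complex.I, 1 + Complex.I} : Set ℂ),
      Tendsto (fun i => nuT (C i) n v p - a i * ‖p‖ ^ 2 * sc n ^ 2) atTop (𝓝 0)) :
    NuIn O C a := by
  let F : ℕ × ℤ × ℤ → ℂ × ℝ := fun q => (⟨sc q.1 * q.2.1, sc q.1 * q.2.2⟩, sc q.1)
  refine ⟨F '' {q | G q.1 q.2}, (to_countable _).image F, ?_, ?_, ?_⟩
  · rintro _ ⟨⟨n, v⟩, hq, rfl⟩
    refine ⟨sc_pos n, fun i j hi hj => ⟨(n + 1, 2 * v.1 + i, 2 * v.2 + j), hG n v _ hq ?_, ?_⟩⟩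
    · rw [Geo_mem_kids]
      dsimp only
      omega
    · refine Prod.ext (Complex.ext ?_ ?_) (Mass_sc_succ n)
      · simp only [F, PfGeo.sub_re, Mass_sc_succ]
        push_cast
        ring
      · simp only [F, PfGeo.sub_im, Mass_sc_succ]
        push_cast
        ring
  · refine measure_mono_null (t := N ∪ ⋃ q, frontier (Walk.box (F q).1 (F q).2)) (fun z hz => ?_)
      (measure_union_null hN0 (measure_iUnion_null fun q => PfGeo.volume_frontier_box _ _))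
    by_cases hzN : z ∈ N
    · exact Or.inl hzN
    obtain ⟨n, hn⟩ := hc z ⟨hz.1, hzN⟩
    refine Or.inr (mem_iUnion.2 ⟨(n, idx n z), subset_closure ?_, fun hi => hz.2 ?_⟩)
    · exact box_eq n (idx n z) ▸ mem_box_idx n z
    · exact mem_iUnion₂.2 ⟨F (n, idx n z), ⟨_, hn, rfl⟩, hi⟩
  · rintro K hK hKO _ ⟨⟨n, v⟩, hq, rfl⟩ hs p hp
    have h1 : IsCompact (csq (CR.ctr n v) (sc n)) := csq_eq_sqC _ _ ▸ PfGeo.isCompact_sqC _ _
    have h2 : closure (Walk.box (F (n, v)).1 (F (n, v)).2) ⊆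
        interior (csq (CR.ctr n v) (sc n)) := by
      rw [PfGeo.closure_box _ (sc_pos n), csq_eq_sqC, PfGeo.interior_sqC]
      simp only [F, Mass_ctr]
      exact fun w hw => lt_of_le_of_lt hw (half_lt_self (sc_pos n))
    refine (h n v hq p hp).congr' ?_
    filter_upwards [hN.sameOn hm hK hKO h1 (hGO n v hq) hs h2] with i hi
    rw [hi.nu p, nuT, net, box_eq]

/-- there are no bad vertices -/
theorem badNegl_univ {O : Set ℂ} {C : ℕ → Cells} (hN : NiceIn O C) (Mn : ℕ → ℝ) (x : ℕ → ℂ) :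
    BadNegl O C (fun _ => univ) Mn x := by
  intro K U hK hKO hU hs ε hε
  filter_upwards [hN K hK hKO 1 one_pos] with n hn u hu
  have h0 : ∀ y, y ∉ ((C n).toFC K).inside U → u y ≤ ε := fun y hy => (hu.1 y hy).le.trans hε.le
  by_cases hx : x n ∈ ((C n).toFC K).inside U
  · refine Net.harm_le _ (PfBnd.esc_of_nice hK hn.2 hU (hs.trans interior_subset))
      (fun y hy => ?_) (fun _ _ y _ hy => h0 y hy) _ hx
    have := hu.2 y hy
    simp only [Pi.zero_apply, zero_mul, add_zero, mem_univ, if_true, zero_div] at this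
    exact this.le
  · exact h0 _ hx

end Pool.Agent.Lib.MP_0d9445_pr.AS
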