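import Pool.Agent.Lib.MP_0d9445_pr.AS.Dom

/-! Small boxes near a point off the exceptional set are good. -/

open MeasureTheory ProbabilityTheory Set Filter Topology Real LQ.Met
open scoped NNReal ENNReal

noncomputable section

namespace Pool.Agent.Lib.MP_0d9445_pr.AS

open CR PPP Walk Cell

variable {Ω : Type} [MeasurableSpace Ω] {M : Model} {P : Measure Ω} {S O N : Set ℂ}
  {s : Ω → Cf} {Y : ℝ≥0 → Ω → Set ℂ}

theorem goodBox_kids {n : ℕ} {v w : ℤ × ℤ} {m : ℕ} (h : GoodBox M P s O n v) (hw : w ∈ kids m v) :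
    GoodBox M P s O (n + m) w := by
  obtain ⟨W, h1, h2⟩ := h
  refine ⟨W, (reg_kids_subset hw ?_).trans h1, h2⟩
  have : (2 : ℝ)⁻¹ ^ m ≤ 1 := pow_le_one₀ (by norm_num) (by norm_num)
  linarith

theorem Surf.goodBox_eventually (hS : Surf M P S O N s Y) {z : ℂ} (hz : z ∈ O \ N) :
    ∀ᶠ n in atTop, ∀ v, z ∈ closure (CR.box n v) → GoodBox M P s O n v := by
  obtain ⟨W, h1, h2⟩ := hS.ac z hz
  obtain ⟨r, hr, hb⟩ := Metric.isOpen_iff.1 (MP_0d9445_pr.isOpen_osq W.1 W.2) z h1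
  have ht : Tendsto sc atTop (𝓝 0) :=
    tendsto_pow_atTop_nhds_zero_of_lt_one (by norm_num) (by norm_num)
  filter_upwards [ht.eventually (gt_mem_nhds (by positivity : 0 < r / 4))] with n hn v hv
  refine ⟨W, fun u hu => hb (Metric.mem_ball.2 ?_), h2⟩
  have e1 := D2.mem_csq.1 (closure_minimal (box_subset_csq n v) (CR.isClosed_csq _ _) hv)
  have e2 := D2.mem_reg.1 hu
  have e3 := sn_triangle z (ctr n v) u
  have e4 := dist_le_sn z u
  rw [sn_comm z (ctr n v)] at e3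
  linarith

end Pool.Agent.Lib.MP_0d9445_pr.AS
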