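import Pool.Agent.Lib.MP_0d9445_pr.AS.Cover
import Pool.Agent.Lib.MP_0d9445_pr.AS.PiAll
import Pool.Agent.Lib.MP_0d9445_pr.AS.Mass
import Pool.Agent.Lib.MP_0d9445_pr.CR.EnvX
import Pool.Agent.Lib.MP_0d9445_pr.CR.EnvM
import Pool.Agent.Lib.MP_0d9445_pr.CR.EnvG

/-! The environment of the walk theorem on a surface. -/

open MeasureTheory ProbabilityTheory Set Filter Topology Real LQ.Met
open scoped NNReal ENNReal

noncomputable section

namespace Pool.Agent.Lib.MP_0d9445_pr.AS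

open CR PPP Walk Cell

variable {Ω : Type} [MeasurableSpace Ω] {M : Model} {P : Measure Ω} {S O N : Set ℂ}
  {s : Ω → Cf} {Y : ℝ≥0 → Ω → Set ℂ} {A κ : ℝ → ℝ}

theorem Env_ratio (M : Model) (hκ : ∀ c, 1 / 2 ≤ κ c) {κ₀ : ℝ} (h0 : 0 < κ₀) :
    Tendsto (fun l : ℝ≥0 => (2 : ℝ) ^ (M.γ / (2 * κ₀) * (⌈κ₀ * ht M.γ l⌉₊ : ℕ)) /
      (κ (ht M.γ l) * l)) atTop (𝓝 0) := by
  have hγ := M.γ_pos
  set β := M.γ / (2 * κ₀) with hβ
  have hβ0 : 0 < β := by positivity
  have h1 : Tendsto (fun c : ℝ => 2 * exp β * exp (-(M.γ / 2 * c))) atTop (𝓝 0) := by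
    have := (tendsto_exp_neg_atTop_nhds_zero.comp
      (tendsto_id.const_mul_atTop (half_pos hγ))).const_mul (2 * exp β)
    simpa using this
  refine squeeze_zero' ?_ ?_ (h1.comp (tendsto_ht (M := M)))
  · exact Eventually.of_forall fun l => div_nonneg (by positivity)
      (mul_nonneg ((by norm_num : (0 : ℝ) ≤ 1 / 2).trans (hκ _)) l.2)
  · filter_upwards [eventually_gt_atTop 0, (tendsto_ht (M := M)).eventually_ge_atTop 0]
      with l hl hc
    have e := exp_ht (M := M) hl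
    set c := ht M.γ l
    have hk := hκ c
    have hJ : ((⌈κ₀ * c⌉₊ : ℕ) : ℝ) ≤ κ₀ * c + 1 := (Nat.ceil_lt_add_one (by positivity)).le
    have h2 : (2 : ℝ) ^ (β * (⌈κ₀ * c⌉₊ : ℕ)) ≤ exp (β + M.γ / 2 * c) := by
      have h3 : (2 : ℝ) ≤ exp 1 := by linarith [add_one_le_exp (1 : ℝ)]
      refine (rpow_le_rpow (by norm_num) h3 (by positivity)).trans ?_
      rw [exp_one_rpow]
      refine exp_le_exp.2 ((mul_le_mul_of_nonneg_left hJ hβ0.le).trans (le_of_eq ?_))
      rw [hβ]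
      field_simp
      ring
    have h4 : exp (M.γ * c) = exp (M.γ / 2 * c) * exp (M.γ / 2 * c) := by
      rw [← exp_add]
      ring_nf
    have h5 := exp_pos (M.γ / 2 * c)
    have h6 := exp_pos β
    rw [← e, div_le_iff₀ (by positivity), Function.comp_apply, exp_neg, h4]
    rw [exp_add] at h2
    refine h2.trans ?_
    have h7 : 2 * exp β * (exp (M.γ / 2 * c))⁻¹ *
        (κ c * (exp (M.γ / 2 * c) * exp (M.γ / 2 * c))) =
        2 * κ c * (exp β * exp (M.γ / 2 * c)) := by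
      field_simp
    rw [h7]
    nlinarith [mul_pos h6 h5]

theorem Surf.nuLikely (hL : LocalLaw M A κ) (hS : Surf M P S O N s Y) :
    Likely P fun ω l => ∀ n v, GoodBox M P s O n v →
      ∀ p ∈ ({1, Complex.I, 1 + Complex.I} : Set ℂ), Tendsto (fun i =>
        nuT (cells S s Y (l i) ω) n v p - A (ht M.γ (l i)) * ‖p‖ ^ 2 * sc n ^ 2) atTop (𝓝 0) := by
  refine Likely.all fun n => Likely.all fun v => Likely.imp fun hg => ?_
  have : Countable ({1, Complex.I, 1 + Complex.I} : Set ℂ) := (toFinite _).countable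
  exact (Likely.all fun p : ({1, Complex.I, 1 + Complex.I} : Set ℂ) => Likely.of_prob
    ((hL.2.2 Ω P S O N s Y hS n v hg).1 p p.2)).mono fun ω l _ a p hp => a ⟨p, hp⟩

theorem env_of {O : Set ℂ} {μ : Measure ℂ} {C : ℕ → Cells} {a Mn : ℕ → ℝ} {J : ℕ → ℕ}
    (hM : Micro) (hO : IsOpen O) (hc : Cover O C μ Mn J) (hd : DegIn O μ C Mn)
    (mem : ∀ n, ∀ x ∈ (C n).V, x ∈ (C n).H x) (nice : NiceIn O C) (ha : ∀ n, 0 < a n)
    (hn : NuIn O C a) (hMt : Tendsto Mn atTop atTop) (hF : ∀ K, IsCompact K → K ⊆ O → Frost μ K)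
    (hJ : Tendsto J atTop atTop)
    (hJM : ∃ β : ℝ, 0 < β ∧ Tendsto (fun n => (2 : ℝ) ^ (β * J n) / Mn n) atTop (𝓝 0)) :
    Env O μ C (fun _ => univ) a Mn := by
  have h1 := env_mass mem nice (fun K hK hKO => (hF K hK hKO).1) hMt hd
  have h2 := env_green hM hc hO
    (fun K hK hKO ε hε => (nice K hK hKO ε hε).mono fun _ a => a.2) hF hMt hJ hJM
  simp only [mem_univ, if_true] at h1 h2
  refine ⟨mem, nice, env_xy hc, ha, hn, hMt, ?_, hF, ?_⟩
  · simpa only [mem_univ, if_true] using h1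
  · simpa only [mem_univ, if_true] using h2

theorem Surf.env_likely (hM : Micro) (F : M.All) (R : RefOK M) (hL : LocalLaw M A κ)
    (hS : Surf M P S O N s Y) :
    Likely P fun ω l => (∀ i, Y (l i) ω ⊆ S) →
      Env O (s ω).2 (fun i => cells S s Y (l i) ω) (fun _ => univ)
        (fun i => A (ht M.γ (l i))) (fun i => κ (ht M.γ (l i)) * l i) := by
  obtain ⟨κ₀, h0, hc⟩ := hS.cover F R hL
  refine (hc.and (hS.nuLikely hL)).mono_ae ?_
  filter_upwards [hS.geo, hS.measOK R] with ω hg hm l hl ⟨⟨h1, h2⟩, h3⟩ hY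
  have mem : ∀ i, ∀ x ∈ (cells S s Y (l i) ω).V, x ∈ (cells S s Y (l i) ω).H x :=
    fun i => mem_vorS hg (hY i)
  have nice : NiceIn O fun i => cells S s Y (l i) ω :=
    env_nice h1 hS.openO hS.closedS hS.sub hg hY fun _ _ => rfl
  refine env_of hM hS.openO h1 h2 mem nice (fun i => hL.1 _) ?_
    ((tendsto_kap hL.2.1 M.γ).comp hl) hm.frost
    (tendsto_nat_ceil_atTop.comp (((tendsto_ht (M := M)).comp hl).const_mul_atTop h0))
    ⟨M.γ / (2 * κ₀), div_pos M.γ_pos (by positivity), (Env_ratio M hL.2.1 h0).comp hl⟩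
  refine nuIn (GoodBox M P s O) hS.nullN (fun n v w a b => goodBox_kids a b) ?_ ?_ mem nice h3
  · rintro n v ⟨W, a, b, -⟩ z hz
    refine b (osq_subset_csq _ _ (a (D2.mem_reg.2 ?_)))
    linarith [D2.mem_csq.1 hz, sc_pos n]
  · intro z hz
    obtain ⟨n, hn⟩ := (hS.goodBox_eventually hz).exists
    exact ⟨n, hn _ (subset_closure (mem_box_idx n z))⟩

/-- every sequence of intensities has a subsequence along which the environment is good -/
theorem Surf.env (hM : Micro) (F : M.All) (R : RefOK M) (hL : LocalLaw M A κ)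
    (hS : Surf M P S O N s Y) {l : ℕ → ℝ≥0} (hl : Tendsto l atTop atTop) :
    ∃ φ : ℕ → ℕ, StrictMono φ ∧ ∀ᵐ ω ∂P,
      Env O (s ω).2 (fun i => cells S s Y (l (φ i)) ω) (fun _ => univ)
        (fun i => A (ht M.γ (l (φ i)))) (fun i => κ (ht M.γ (l (φ i))) * l (φ i)) := by
  obtain ⟨φ, hφ, h⟩ := (hS.env_likely hM F R hL).subseq hl
  refine ⟨φ, hφ, ?_⟩
  filter_upwards [h, ae_all_iff.2 fun i => hS.ptsS (l (φ i))] with ω a b using a b

end Pool.Agent.Lib.MP_0d9445_pr.AS
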