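import Pool.Agent.Lib.MP_0d9445_pr.AS.Defs
import Pool.Agent.Lib.MP_0d9445_pr.EN.All
import Pool.Agent.Lib.MP_0d9445_pr.EN.AC
import Pool.Agent.Lib.MP_0d9445_pr.Met.Loc
import Pool.Agent.Lib.MP_0d9445_pr.Su.Iface
import Pool.Agent.Lib.MP_0d9445_pr.Stmt

/-! A surface of the statement is a surface of the assembly. -/

open MeasureTheory ProbabilityTheory Set Filter Topology Real LQ.Met
open scoped NNReal ENNReal

noncomputable section

namespace Pool.Agent.Lib.MP_0d9445_pr.AS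

open CR PPP Walk Cell

variable {Ω : Type} [MeasurableSpace Ω] {M : Model} {P : Measure Ω} {S O N : Set ℂ}
  {s : Ω → Cf} {Y : ℝ≥0 → Ω → Set ℂ}

theorem vorS_univ (d : Met) (Y : Set ℂ) : vorS univ d Y = vor d Y := by
  unfold vorS vor cell
  simp only [mem_univ, true_and, Function.curry_apply]

theorem inst_atom {μ : Measure ℂ} {z : ℂ} (h : Frost μ {z}) : μ {z} = 0 := by
  obtain ⟨-, C, α, r₀, hα, hr, h⟩ := h
  have t : Tendsto (fun r : ℝ => ENNReal.ofReal (C * r ^ α)) (𝓝[>] 0) (𝓝 0) := by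
    have := ENNReal.tendsto_ofReal
      (((continuousAt_rpow_const 0 α (Or.inr hα.le)).tendsto.const_mul C).mono_left
        (nhdsWithin_le_nhds (s := Ioi 0)))
    rwa [zero_rpow hα.ne', mul_zero, ENNReal.ofReal_zero] at this
  refine le_zero_iff.1 (ge_of_tendsto t ?_)
  filter_upwards [Ioc_mem_nhdsGT hr] with r hr'
  have := h z rfl r hr'.1 hr'.2
  rwa [inter_eq_right.2 (singleton_subset_iff.2 (Metric.mem_ball_self hr'.1))] at this

theorem inst_closure (W : Sq) : closure W.o ⊆ W.c :=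
  closure_minimal (osq_subset_csq _ _) (isClosed_csq _ _)

theorem surf_of_locAC (F : M.All) (R : RefOK M) [IsProbabilityMeasure P] {Z : Set ℂ}
    (hZ : Z.Finite) (hN : IsClosed N) (hN0 : volume N = 0) {h : Ω → Field} {f : Ω → ℂ → ℝ}
    {d : Ω → Met} {m : Ω → Measure ℂ} (hh : Measurable h)
    (hν : ∃ ν, Su.IsGFF0 ν ∧ P.map h ≪ ν) (hf : ∀ᵐ ω ∂P, ContinuousOn (f ω) Zᶜ)
    (hS : IsSurf M.γ M.ξ M.D M.μ Z P h f d m) (hY : ∀ l, IsPPP P d m l (Y l))
    (hac : ∀ z, z ∉ Z → z ∉ N → ∃ r, 0 < r ∧ csq z r ⊆ Zᶜ ∧ Su.LocAC P h f (osq z r)) :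
    Surf M P univ Zᶜ N (fun ω => (d ω, m ω)) Y ∧ ∀ᵐ ω ∂P, SigmaFinite (m ω) := by
  obtain ⟨ν, hν, ac⟩ := hν
  have hO := hZ.isClosed.isOpen_compl
  have hc := M.measurable_conf.fun_comp hh
  have ac0 : P.map (fun ω => M.conf (h ω)) ≪ M.ref0 := by
    have := ac.map M.measurable_conf
    rwa [F.eu ν hν.1 hν.2, Measure.map_map M.measurable_conf hh,
      Measure.map_map M.measurable_conf M.meas_hat] at this
  have g1 : ∀ᵐ ω ∂P, IsGood (M.conf (h ω)) ∧ IsVague M.γ (h ω) (M.μ (h ω)) :=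
    ae_of_ae_map (p := fun H => IsGood (M.conf H) ∧ IsVague M.γ H (M.μ H)) hh.aemeasurable
      (ac.ae_le ((M.ae_good hν.1.plus).and (M.ae_vague hν.1.plus)))
  have g2 : ∀ᵐ ω ∂P, MeasOK (M.μ (h ω)) univ :=
    ae_of_ae_map (p := fun c : Cf => MeasOK c.2 univ) hc.aemeasurable (ac0.ae_le R.ok)
  have cl : ∀ W : Sq, W.c ⊆ Zᶜ →
      ∀ᵐ ω ∂P, ∃ k : ℕ, Close M.ξ M.γ k W (d ω, m ω) (M.conf (h ω)) := fun W hW => by
    filter_upwards [g1, hf, hS.length, hS.weyl, hS.area] with ω ⟨a1, _⟩ a2 a3 a4 a5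
    obtain ⟨K, hK⟩ := (isCompact_csq W.1 W.2).exists_bound_of_continuousOn (a2.mono hW)
    refine ⟨⌈K⌉₊, EN.close_of_weylOn (t := 0) (f₂ := fun _ => 0) (m := M.μ (h ω)) (U₂ := univ)
      (c₁ := (d ω, m ω)) (c₂ := M.conf (h ω)) M.ξ_pos.le M.γ_pos.le a3 a1
      (a4 _ hO disjoint_compl_left) ?_ ((inst_closure W).trans hW) (subset_univ _) ?_ ?_
      fun z hz => ?_⟩
    · simpa only [mul_zero, Model.conf] using isWeylOn_zero a1.1 univ
    · simp only [add_zero, a5]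
    · simp only [mul_zero, exp_zero, ENNReal.ofReal_one, Model.conf]
      rw [show (fun _ : ℂ => (1 : ℝ≥0∞)) = 1 from rfl, withDensity_one]
    · rw [add_zero, sub_zero]
      exact (hK z (osq_subset_csq _ _ hz)).trans (Nat.le_ceil K)
  refine ⟨⟨inferInstance, hS.measd.prodMk hS.measm, isClosed_univ, hO, subset_univ _, hN, hN0,
    hS.length.mono fun ω a => nearGeo a.1 a.2, fun l => by simp,
    fun l W hW => ?_, fun W hW => ⟨_, hc, ac0, cl W hW⟩, fun z hz => ?_⟩, ?_⟩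
  · refine (hY l).isCox hS.measd hS.measm (isOpen_osq _ _).measurableSet
      ((isBounded_csq _ _).subset (osq_subset_csq _ _)) ?_ ?_
    · filter_upwards [cl W hW, g2] with ω ⟨k, a1⟩ a2
      have := a1.2.2 univ
      rw [Measure.smul_apply, Measure.restrict_apply_univ, Measure.restrict_apply_univ] at this
      exact ne_top_of_le_ne_top (ENNReal.mul_ne_top ENNReal.ofReal_ne_top
        ((measure_mono (osq_subset_csq _ _)).trans_lt
          (a2.frost _ (isCompact_csq _ _) (subset_univ _)).1).ne) this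
    · filter_upwards [hS.area, g2] with ω a1 a2 z _
      rw [a1]
      exact withDensity_absolutelyContinuous _ _
        (inst_atom (a2.frost _ isCompact_singleton (subset_univ _)))
  · obtain ⟨r, hr, h1, h2⟩ := hac z hz.1 hz.2
    exact ⟨(z, r), ⟨by simpa using hr, by simpa using hr⟩, h1, M.surf_ldom hh hS h2 hZ.isClosed
      (disjoint_compl_left.mono_left ((inst_closure (z, r)).trans h1))⟩
  · filter_upwards [hS.area, g1] with ω a1 ⟨_, a2, _⟩
    rw [a1]
    infer_instance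

end Pool.Agent.Lib.MP_0d9445_pr.AS
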