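import Pool.Agent.Lib.MP_0d9445_pr.CR.Prob
import Pool.Agent.Lib.MP_0d9445_pr.AS.Likely

/-! Good windows indexed by the intensity. -/

open MeasureTheory Set Filter Topology
open scoped ENNReal NNReal

namespace Pool.Agent.Lib.MP_0d9445_pr.AS

open CR Walk Cell

variable {Ω : Type} [MeasurableSpace Ω]

/-- the (outer) probabilities tend to zero -/
def VanL (P : Measure Ω) (E : ℝ≥0 → Set Ω) : Prop := Tendsto (fun l => P (E l)) atTop (𝓝 0)

/-- a window, an event on which it is used, and random patterns -/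
structure LW (Ω : Type) where
  W : Set ℂ
  G : Set Ω
  d : ℕ
  a : ℝ≥0 → Ω → Pat
  A : ℝ≥0
  α : ℝ

/-- the box lies well inside the window -/
def LW.In (w : LW Ω) (m : ℕ) (v : ℤ × ℤ) : Prop := Metric.ball (ctr m v) (48 * sc m) ⊆ w.W

/-- the window along a sequence of intensities -/
def LW.seq (w : LW Ω) (l : ℕ → ℝ≥0) : PW Ω := ⟨w.W, w.G, w.d, fun n => w.a (l n), w.A, w.α⟩

/-- the deterministic window data along `l` at `ω` -/
def LW.at (w : LW Ω) (l : ℕ → ℝ≥0) (ω : Ω) : WD := ⟨w.W, w.d, fun n => w.a (l n) ω, w.A, w.α⟩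

/-- the crude estimates in probability -/
structure LW.OK (w : LW Ω) (P : Measure Ω) (C : ℝ≥0 → Ω → Cells) (M : ℝ≥0 → ℝ) (J : ℝ≥0 → ℕ) :
    Prop where
  d7 : 7 ≤ w.d
  α_pos : 0 < w.α
  dom : ∀ l, ∀ᵐ ω ∂P, ω ∈ w.G → Dom (C l ω) (w.a l ω) w.W ∧ ((C l ω).V ∩ w.W).Finite ∧
    ∀ m v, (w.a l ω).B m v → ((C l ω).V ∩ ann m v).Nonempty
  hB : ∀ m v, w.In m v → VanL P fun l => w.G ∩ {ω | w.a l ω ∈ badB m v}
  hK : ∀ m v, w.In m v → VanL P fun l => w.G ∩ {ω | w.a l ω ∈ badK w.d w.A m v}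
  hS : ∀ k : ℕ, ∀ m v, w.In m v →
    VanL P fun l => w.G ∩ {ω | w.a l ω ∈ badS w.d w.A (1 / (k + 1)) m v}
  hE : ∀ m v, w.In m v → VanL P fun l => w.G ∩ {ω | w.a l ω ∈ badE (J l) m v}
  hP : ∀ m v, w.In m v → ∀ ε : ℝ≥0∞, 0 < ε → ∃ j, ∀ᶠ l in atTop,
    P (w.G ∩ {ω | w.a l ω ∈ badP w.d w.α (2 * M l) j m v}) ≤ ε
  hF : ∀ m v, w.In m v → ∀ η : ℝ, 0 < η → ∀ (k : ℕ → ℕ) (I : ℕ → Finset (ℤ × ℤ)),
    (∀ j, I j ⊆ kids (k j) v) → Tendsto (fun j => ((I j).card : ℝ) / 4 ^ k j) atTop (𝓝 0) →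
    ∀ ε : ℝ≥0∞, 0 < ε → ∀ᶠ j in atTop, ∀ᶠ l in atTop,
      P (w.G ∩ {ω | w.a l ω ∈ badF w.d (η * M l) (m + k j) (I j)}) ≤ ε

variable {w : LW Ω} {P : Measure Ω} {C : ℝ≥0 → Ω → Cells} {M : ℝ≥0 → ℝ} {J : ℝ≥0 → ℕ}
  {μ : Ω → Measure ℂ}

theorem VanL.biUnion {ι : Type*} (I : Finset ι) {E : ι → ℝ≥0 → Set Ω}
    (h : ∀ i ∈ I, VanL P (E i)) : VanL P fun l => ⋃ i ∈ I, E i l :=
  tendsto_iff_seq_tendsto.2 fun _ hl => Van.biUnion I fun i hi => (h i hi).comp hl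

omit [MeasurableSpace Ω] in
theorem LW.In.kids {m k : ℕ} {v q : ℤ × ℤ} (h : w.In m v) (hq : q ∈ kids k v) : w.In (m + k) q :=
  (sub_kids hq).ball_subset.trans h

theorem LW.OK.seq (hw : w.OK P C M J) {l : ℕ → ℝ≥0} (hl : Tendsto l atTop atTop) :
    (w.seq l).OK P (fun n => C (l n)) (fun n => M (l n)) fun n => J (l n) where
  d7 := hw.d7
  α_pos := hw.α_pos
  dom n := hw.dom (l n)
  hB m v h := (hw.hB m v h).comp hl
  hK m v h := (hw.hK m v h).comp hl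
  hS k m v h := (hw.hS k m v h).comp hl
  hE m v h := (hw.hE m v h).comp hl
  hP m v h ε hε := (hw.hP m v h ε hε).imp fun _ a => hl.eventually a
  hF m v h η hη k I hI h0 ε hε := (hw.hF m v h η hη k I hI h0 ε hε).mono fun _ a => hl.eventually a

/-- the degree law for every box of the window, from the degree law off a closed null set -/
theorem LW.OK.deg_law [IsProbabilityMeasure P] (hw : w.OK P C M J) (hμ : Measurable μ)
    {N : Set ℂ} (hN : IsClosed N) (hN0 : volume N = 0) (hM : Tendsto M atTop atTop)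
    (hμN : ∀ᵐ ω ∂P, ω ∈ w.G → μ ω (N ∩ w.W) = 0 ∧ ∀ K, IsCompact K → K ⊆ w.W → μ ω K < ∞)
    (hoff : ∀ z ∈ w.W \ N, ∃ U ∈ 𝓝 z, ∀ m v, Metric.ball (ctr m v) (48 * sc m) ⊆ U →
      ∀ η : ℝ, 0 < η → VanL P fun l => w.G ∩ {ω | degBad (C l ω) (μ ω) (M l) η (box m v)})
    (m : ℕ) (v : ℤ × ℤ) (h : w.In m v) (η : ℝ) (hη : 0 < η) :
    VanL P fun l => w.G ∩ {ω | degBad (C l ω) (μ ω) (M l) η (box m v)} :=
  tendsto_iff_seq_tendsto.2 fun _ hl =>
    (hw.seq hl).deg_law hμ hN hN0 (hM.comp hl) hμN (fun z hz => (hoff z hz).imp fun _ a =>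
      ⟨a.1, fun m v b η hη => (a.2 m v b η hη).comp hl⟩) m v h η hη

/-- the window is good along the sequences that avoid the bad events -/
theorem LW.OK.likely (hw : w.OK P C M J)
    (hdeg : ∀ m v, w.In m v → ∀ η : ℝ, 0 < η →
      VanL P fun l => w.G ∩ {ω | degBad (C l ω) (μ ω) (M l) η (box m v)}) :
    Likely P fun ω l => ω ∈ w.G →
      (w.at l ω).OK (fun i => C (l i) ω) (μ ω) (fun i => M (l i)) (fun i => J (l i)) ∧
      ∀ m v, w.In m v → ∀ k : ℕ, ∀ᶠ i in atTop,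
        ¬ degBad (C (l i) ω) (μ ω) (M (l i)) (1 / (k + 1)) (box m v) := by
  have all2 : ∀ {E : ℕ → ℤ × ℤ → ℝ≥0 → Set Ω},
      (∀ m v, w.In m v → VanL P fun l => w.G ∩ E m v l) →
      Likely P fun ω l => ∀ m v, w.In m v → ω ∈ w.G → ∀ᶠ i in atTop, ω ∉ E m v (l i) :=
    fun h => Likely.all fun m => Likely.all fun v => Likely.imp fun a =>
      Likely.of_tendsto_inter (h m v a)
  have hP : Likely P fun ω l => ∀ m v, w.In m v → ω ∈ w.G → ∀ᶠ n in atTop, ∃ j : ℕ,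
      w.a (l n) ω ∉ badP w.d w.α (2 * M (l n)) j m v ∧ ∀ i < j, ∀ q ∈ kids (i * w.d) v,
        ¬ degBad (C (l n) ω) (μ ω) (M (l n)) (2⁻¹ ^ (i * w.d)) (box (m + i * w.d) q) := by
    refine Likely.all fun m => Likely.all fun v => Likely.imp fun a => ?_
    choose j hj using fun n : ℕ => hw.hP m v a (2⁻¹ ^ (n + 1)) (half_pow_pos _)
    refine (Likely.of_family_inter (G := w.G) (E := fun n l =>
      {ω | w.a l ω ∈ badP w.d w.α (2 * M l) (j n) m v} ∪ ⋃ i ∈ Finset.range (j n),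
        ⋃ q ∈ kids (i * w.d) v, {ω | degBad (C l ω) (μ ω) (M l) (2⁻¹ ^ (i * w.d))
          (box (m + i * w.d) q)}) fun n => ?_).mono fun ω l _ h hG => (h hG).mono fun n hn => ?_
    · have h1 : VanL P fun l => ⋃ i ∈ Finset.range (j n), ⋃ q ∈ kids (i * w.d) v, w.G ∩
          {ω | degBad (C l ω) (μ ω) (M l) (2⁻¹ ^ (i * w.d)) (box (m + i * w.d) q)} :=
        VanL.biUnion _ fun i _ => VanL.biUnion _ fun q hq =>
          hdeg _ _ (a.kids hq) _ (by positivity)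
      filter_upwards [hj n, h1.eventually (ge_mem_nhds (half_pow_pos (n + 1)))] with l b c
      rw [inter_union_distrib_left]
      refine (measure_union_le _ _).trans ((add_le_add b (by
        simpa only [inter_iUnion] using c)).trans (le_of_eq ?_))
      rw [pow_succ, ← mul_add, ENNReal.inv_two_add_inv_two, mul_one]
    · simp only [mem_union, mem_iUnion, not_or, not_exists, mem_ofPred_eq, Finset.mem_range] at hn
      exact ⟨j n, hn.1, hn.2⟩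
  refine ((((((Likely.of_ae_each hw.dom).and (all2 hw.hB)).and (all2 hw.hK)).and
    (Likely.all fun k => all2 (hw.hS k))).and (all2 hw.hE)).and hP).and
    (Likely.all fun k : ℕ => all2 fun m v a => hdeg m v a (1 / (k + 1)) (by positivity)) |>.mono ?_
  rintro ω l - ⟨⟨⟨⟨⟨⟨h0, hB⟩, hK⟩, hS⟩, hE⟩, hP⟩, hD⟩ hG
  refine ⟨⟨hw.d7, hw.α_pos, h0.mono fun _ a => (a hG).1, h0.mono fun _ a => (a hG).2.1,
    h0.mono fun _ a => (a hG).2.2, fun m v a => hB m v a hG, fun m v a => hK m v a hG,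
    fun k m v a => hS k m v a hG, fun m v a => hE m v a hG,
    fun m v a => (hP m v a hG).mono fun n ⟨j, b, c⟩ => ⟨j, b, fun i hi q hq => ?_⟩⟩,
    fun m v a k => hD k m v a hG⟩
  have := not_lt.1 (mt degBad_of_degUp (c i hi q hq))
  rwa [ENNReal.ofReal_pow (by norm_num), ENNReal.ofReal_inv_of_pos two_pos,
    ENNReal.ofReal_ofNat] at this

end Pool.Agent.Lib.MP_0d9445_pr.AS
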