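import Pool.Agent.Lib.MP_0d9445_pr.AS.Dom
import Pool.Agent.Lib.MP_0d9445_pr.AS.MeasOK
import Pool.Agent.Lib.MP_0d9445_pr.EN.All
import Pool.Agent.Lib.MP_0d9445_pr.EN.AC
import Pool.Agent.Lib.MP_0d9445_pr.EN.Cov
import Pool.Agent.Lib.MP_0d9445_pr.HO.Loc

/-! AS1: the homogenisation on a surface. -/

open MeasureTheory ProbabilityTheory Set Filter Topology Real LQ.Met
open scoped NNReal ENNReal

noncomputable section

namespace Pool.Agent.Lib.MP_0d9445_pr.AS

open CR PPP Walk Cell EN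
open HO (W0 K0 S0 Y0 y0 Shield LocX nuX piX muX badX)

variable {Ω : Type} [MeasurableSpace Ω] {M : Model} {P : Measure Ω} {S O N : Set ℂ}
  {s : Ω → Cf} {Y : ℝ≥0 → Ω → Set ℂ}

/-- localisation gives shielding -/
theorem Local_shield {ξ : ℝ} {d : ℕ} {x : Xi} (hd : 7 ≤ d) (hx : x ∈ LocX ξ d)
    (h : NearGeo S (Function.curry x.1.1)) (hS : W0.c ⊆ S) : Shield x := by
  intro w hw u hu
  have hs := shut_of_Loc (d := d) (by omega) hx
  rw [show sc 0 = 1 from pow_zero _] at hs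
  obtain ⟨m, hm, hB⟩ := hs w hw
  have hsc : sc m ≤ 1 / 128 :=
    (pow_le_pow_of_le_one (a := (2 : ℝ)⁻¹) (m := 7) (by norm_num) (by norm_num) (by omega)).trans
      (by norm_num)
  have hp := CR.sc_pos m
  have hw' : w ∈ csq (ctr m (idx m w)) (sc m / 2) := box_subset_csq m _ (mem_box_idx m w)
  have hu' : u ∉ reg m (idx m w) (9 / 2) := by
    rintro ⟨h1, h2⟩
    obtain ⟨h3, h4⟩ := hw'
    have h5 := Complex.norm_le_abs_re_add_abs_im (u - w)
    rw [← dist_eq_norm, hu, Complex.sub_re, Complex.sub_im] at h5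
    rw [abs_sub_comm] at h3 h4
    linarith [abs_sub_le u.re (ctr m (idx m w)).re w.re, abs_sub_le u.im (ctr m (idx m w)).im w.im]
  obtain ⟨y, hy, hlt⟩ := blk_in h ((csq_subset_closure _ (by positivity)).trans
    ((closure_mono hB.1).trans ((closure_osq_subset _ _).trans hS))) (by simp) hB.2
    (csq_mono _ (by linarith) hw')
    (hS (csq_mono _ (by norm_num [W0]) (HO.ball_subset_csq hw hu.le))) hu'
  exact ⟨y, ⟨hy.1, hB.1 (ann_subset_reg _ _ hy.2)⟩, hlt⟩

theorem Local_sub (n : ℕ) (v : ℤ × ℤ) (z : ℂ) :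
    |(dy n 0 * z + ⟨sc n * v.1, sc n * v.2⟩).re - (ctr n v).re| = |z.re - y0.re| * sc n ∧
    |(dy n 0 * z + ⟨sc n * v.1, sc n * v.2⟩).im - (ctr n v).im| = |z.im - y0.im| * sc n := by
  rw [dy_zero, HO.y0_re, HO.y0_im, ← abs_of_pos (CR.sc_pos n), ← abs_mul, ← abs_mul,
    abs_of_pos (CR.sc_pos n), Complex.add_re, Complex.add_im, Complex.re_ofReal_mul,
    Complex.im_ofReal_mul, ctr]
  constructor <;> exact congrArg _ (by ring)

theorem Local_csq (n : ℕ) (v : ℤ × ℤ) (r : ℝ) (z : ℂ) :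
    dy n 0 * z + ⟨sc n * v.1, sc n * v.2⟩ ∈ csq (ctr n v) (r * sc n) ↔ z ∈ csq y0 r := by
  simp only [csq, mem_ofPred_eq, Local_sub, mul_le_mul_iff_left₀ (CR.sc_pos n)]

theorem Local_osq (n : ℕ) (v : ℤ × ℤ) (r : ℝ) (z : ℂ) :
    dy n 0 * z + ⟨sc n * v.1, sc n * v.2⟩ ∈ reg n v r ↔ z ∈ osq y0 r := by
  simp only [reg, osq, mem_ofPred_eq, Local_sub, mul_lt_mul_iff_left₀ (CR.sc_pos n)]

/-- on the localisation event the local functionals are those of the true net -/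
theorem Local_det {ξ γ c : ℝ} {d n : ℕ} {v : ℤ × ℤ} (hd : 7 ≤ d) {e : Cf} {Z : Set ℂ} {W : Sq}
    (h : NearGeo S (Function.curry e.1)) (hZ : Z ⊆ S) (hW : reg n v (3 / 2) ⊆ W.o)
    (hWS : W.c ⊆ S) {x y : Tup} (hx : pts x = Z ∩ W.o) {X : Xi}
    (hX : X = pullX W0 (dy n 0) ⟨sc n * v.1, sc n * v.2⟩ (scale ξ γ c e, x, y))
    (hb : X ∈ LocX ξ d) :
    (∀ p, nuT (vorS S e.1 Z) n v p = sc n ^ 2 * nuX ξ d p X) ∧
      piT (vorS S e.1 Z) n v = piX ξ d X ∧ muX X = exp (γ * c) * (e.2 (CR.box n v)).toReal := by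
  have ha := (sim_dy n 0).ne
  set b : ℂ := ⟨sc n * v.1, sc n * v.2⟩
  set φ := aff ha b
  have h' := HO.nearGeo_scale h ξ γ c
  have hS : ∀ z ∈ W0.c, dy n 0 * z + b ∈ S := fun z hz => hWS (closure_osq_subset _ _
    (closure_mono hW (csq_subset_closure _ (by have := CR.sc_pos n; positivity)
      ((Local_csq n v _ z).2 hz))))
  have hY : ∀ z ∈ W0.o, dy n 0 * z + b ∈ Z ↔ dy n 0 * z + b ∈ pts x := fun z hz => by
    rw [hx]
    exact (and_iff_left (hW ((Local_osq n v _ z).2 hz))).symm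
  have hA : ∀ z, dy n 0 * z + b ∈ CR.box n v ↔ z ∈ S0 := fun z => by
    rw [box_eq, dy_zero]
    exact HO.mem_box_iff_S0 (CR.sc_pos n) _ _
  have hK : ∀ z, φ z ∈ csq (ctr n v) (sc n) ↔ z ∈ K0 := fun z => by
    simpa only [one_mul] using! Local_csq n v 1 z
  have g : Shield X := Local_shield hd hb (hX ▸ HO.nearGeo_pull h' φ) hS
  have V := HO.win0 (d := X.1.1) (hX ▸ HO.nearGeo_pull h' φ) hS
  have g' : GLoc (Function.curry X.1.1) (φ ⁻¹' Z) K0 (1 / 4) := GLoc.mono g Subset.rfl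
    fun z hz => by
      rw [hX, HO.mem_Y0_pullX ha] at hz
      exact (hY z hz.2).2 hz.1
  have hc : ∀ z w, φ w ∈ (vorS S e.1 Z).H (φ z) ↔
      w ∈ cell (φ ⁻¹' S) (Function.curry X.1.1) (φ ⁻¹' Z) z := fun z w => by
    have := cell_preimage (S := S) (D := Function.curry (scale ξ γ c e).1) (P := φ ⁻¹' Z) φ z
    rw [φ.image_preimage, HO.cell_scale] at this
    rw [hX]
    exact (Set.ext_iff.1 this w).symm
  have ht := HO.transfer (x := (scale ξ γ c e, x, y)) (C := vorS S e.1 Z)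
    (K := csq (ctr n v) (sc n)) h' ha hS hZ hY (hX ▸ g) rfl
    (fun z => (HO.cell_scale S Z e ξ γ c z).symm) ((pts_finite x).subset fun z hz => ?_) hA
    fun z hz _ w hw => ?_
  · rw [← hX] at ht
    refine ⟨fun p => ?_, ?_, ?_⟩
    · rw [nuX, indicator_of_mem hb, HO.nu0, ← HO.nu_real_mul, ← Complex.conj_ofReal, ← dy_zero]
      exact ht.1 p
    · rw [piX, indicator_of_mem hb]
      exact ht.2.1
    · rw [hX, HO.muX_pullX ha _ _ _ hA]
      simp [scale, ENNReal.toReal_ofReal (exp_pos _).le]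
  · obtain ⟨z, rfl⟩ := φ.surjective z
    obtain ⟨hz, w, h1, h2⟩ := hz
    obtain ⟨w, rfl⟩ := φ.surjective w
    exact (hY z (V.mem_window g' ((hK w).1 h2) (hZ hz) ((hc z w).1 h1))).1 hz
  · obtain ⟨z, rfl⟩ := φ.surjective z
    obtain ⟨w, rfl⟩ := φ.surjective w
    have hz' := HO.ball_subset_K0 ((hA z).1 hz)
    exact (hK w).2 (hz' (Metric.ball_subset_closedBall
      (g'.cell_subset V.geo (preimage_mono hZ) V.pos V.ballS hz' ((hc z w).1 hw))))

theorem Local_meas (γ L : ℝ) (W : Sq) {B : Set Xi} (hB : MeasurableSet[GGhat W.o] B) :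
    Measurable[GG W.o] fun e => pt2K γ L W e {y | (e, y) ∈ B} := by
  have hm := measurable_restrict_GG W.o
  rw [(isOpen_osq _ _).interior_eq] at hm
  have e : ∀ e : Cf, pt2K γ L W e = pk W.o (measurableSet_o W) (exp (-(γ * L))).toNNReal
      (exp (γ * L) - exp (-(γ * L))).toNNReal (e.2.restrict W.o) := fun e => by
    simp only [pt2K_apply, pk_apply, inten_eq, cut, Measure.restrict_apply_self,
      Measure.restrict_restrict (measurableSet_o W), inter_self]
  simp only [e]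
  let _ : MeasurableSpace Cf := GG W.o
  exact Kernel.measurable_kernel_prodMk_left (κ := (pk W.o (measurableSet_o W) _ _).comap _ hm) hB.1

theorem Local_exp {l : ℝ≥0} (hl : 0 < l) : exp (M.γ * ht M.γ l) = l := by
  rw [ht, mul_div_cancel₀ _ M.γ_pos.ne', exp_log (NNReal.coe_pos.2 hl)]

theorem Local_ht : Tendsto (ht M.γ) atTop atTop :=
  (tendsto_log_atTop.comp (NNReal.tendsto_coe_atTop.2 tendsto_id)).atTop_div_const M.γ_pos

theorem Local_ind {α β : Type*} {A : Set α} {B : Set β} {a : α} {b : β} (h : a ∈ A ↔ b ∈ B) :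
    A.indicator (1 : α → ℝ≥0∞) a = B.indicator 1 b := by
  by_cases k : b ∈ B
  · rw [indicator_of_mem k, indicator_of_mem (h.2 k), Pi.one_apply, Pi.one_apply]
  · rw [indicator_of_notMem k, indicator_of_notMem (mt h.1 k)]

/-- local events that are unlikely for the reference law are unlikely on the surface -/
theorem Local_tendsto (R : RefOK M) (hS : Surf M P S O N s Y) {W : Sq} (hWO : W.c ⊆ O)
    (hac : AC M P s W) {B : ℝ → Set Xi} (hB : ∀ c, MeasurableSet[GGhat W.o] (B c))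
    (h : Tendsto (fun c => ∫⁻ e, pt2K M.γ 0 W (scale M.ξ M.γ c e)
      {y | (scale M.ξ M.γ c e, y) ∈ B c} ∂M.ref) atTop (𝓝 0)) :
    Tendsto (fun l => P {ω | ∀ x, pts x = Y l ω ∩ W.o →
      (scale M.ξ M.γ (ht M.γ l) (s ω), x, PPP.mk 0 ![]) ∈ B (ht M.γ l)}) atTop (𝓝 0) := by
  have := hS.prob
  have h1 := (Model.LDom.tendsto hS.meas hac
    (fun c => (Local_meas M.γ 0 W (hB c)).comp (measurable_scale_GG M.ξ M.γ c W.o))
    (fun _ _ => prob_le_one) h).comp (Local_ht (M := M))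
  refine tendsto_of_tendsto_of_tendsto_of_le_of_le' tendsto_const_nhds h1
    (Eventually.of_forall fun _ => zero_le) ?_
  filter_upwards [eventually_gt_atTop 0] with l hl
  set c := ht M.γ l
  have hm : MeasurableSet (B c) := GGhat_le _ _ (hB c)
  set F : Cf → Set ℂ → ℝ≥0∞ := fun e Z => {Z : Set ℂ | ∀ x, pts x = Z →
    (scale M.ξ M.γ c e, x, PPP.mk 0 ![]) ∈ B c}.indicator 1 Z with hF
  have e : ∀ e x, F e (pts x) = (B c).indicator 1 (scale M.ξ M.γ c e, x, PPP.mk 0 ![]) :=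
    fun e x => Local_ind ⟨fun k => k x rfl, fun k x' k' =>
      ((hB c).2 _ _ _ _ _ (by rw [k']) rfl).1 k⟩
  have hFm : Measurable fun p : Cf × Tup => F p.1 (pts p.2) := by
    simp only [e]
    exact (measurable_one.indicator hm).comp (((measurable_scale _ _ _).comp measurable_fst).prodMk
      (measurable_snd.prodMk measurable_const))
  calc _ ≤ P {ω | 1 ≤ F (s ω) (Y l ω ∩ W.o)} :=
        measure_mono fun ω hω => (indicator_of_mem (s := {Z : Set ℂ | ∀ x, pts x = Z →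
          (scale M.ξ M.γ c (s ω), x, PPP.mk 0 ![]) ∈ B c}) hω (1 : Set ℂ → ℝ≥0∞)).ge
    _ ≤ ∫⁻ ω, F (s ω) (Y l ω ∩ W.o) ∂P := by
        simpa using mul_meas_ge_le_lintegral₀ ((hS.cox l W hWO).aemeasurable hFm) 1
    _ = _ := by
        rw [(hS.cox l W hWO).lintegral_eq hFm]
        refine lintegral_congr_ae ((hS.measOK R).mono fun ω hω => ?_)
        have hf : (scale M.ξ M.γ c (s ω)).2 W.o < ∞ := ENNReal.mul_lt_top ENNReal.ofReal_lt_top
          ((measure_mono (osq_subset_csq _ _)).trans_lt (hω.frost _ (isCompact_csq _ _) hWO).1)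
        have e1 : inten (exp (-(M.γ * 0))) W (scale M.ξ M.γ c (s ω)) = winInt l W.o (s ω) := by
          rw [inten, if_pos hf]
          simp [scale, winInt, c, Local_exp hl]
        have hm' : MeasurableSet {y | (scale M.ξ M.γ c (s ω), y) ∈ B c} :=
          measurable_prodMk_left hm
        beta_reduce
        simp only [e, Function.comp_apply]
        rw [pt2K_apply, ← lintegral_indicator_one hm',
          lintegral_pp2 _ _ (measurable_one.indicator hm'), e1]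
        refine lintegral_congr fun x => ?_
        refine Eq.symm ((lintegral_congr_ae ((ae_pts_subset _ MeasurableSet.empty
          (by simp [inten])).mono fun y hy => Local_ind ((hB c).2 _ x y x (PPP.mk 0 ![]) rfl
            (by rw [subset_empty_iff.1 hy]; simp [pts])))).trans ?_)
        rw [lintegral_const, measure_univ, mul_one]

theorem localLaw_of (R : RefOK M) {d : ℕ} {A κ : ℝ → ℝ} (hd : 7 ≤ d) (hA : ∀ c, 0 < A c)
    (hκ : ∀ c, 1 / 2 ≤ κ c)
    (hm : ∀ η c, MeasurableSet[GGhat W0.o] (badX M.γ M.ξ d A κ η c))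
    (hT : ∀ (n : ℕ) (b : ℂ) (W : Sq), HO.In (dy n 0) b W.o → ∀ η, 0 < η →
      Tendsto (fun c => ∫⁻ e, pt2K M.γ 0 W (scale M.ξ M.γ c e)
        {y | pullX W0 (dy n 0) b (scale M.ξ M.γ c e, y) ∈ badX M.γ M.ξ d A κ η c} ∂M.ref)
        atTop (𝓝 0)) : LocalLaw M A κ := by
  refine ⟨hA, hκ, fun Ω _ P S O N s Y hS n v ⟨W, hW, hWO, hac⟩ => ?_⟩
  have hin : HO.In (dy n 0) ⟨sc n * v.1, sc n * v.2⟩ W.o := fun z hz =>
    hW ((Local_osq n v _ z).2 hz)
  have key : ∀ η : ℝ, 0 < η → ∀ E : ℝ≥0 → Set Ω, (∀ l, 0 < l → ∀ ω X,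
      X ∉ badX M.γ M.ξ d A κ η (ht M.γ l) →
      (∀ p, nuT (cells S s Y l ω) n v p = sc n ^ 2 * nuX M.ξ d p X) →
      piT (cells S s Y l ω) n v = piX M.ξ d X → muX X = l * ((s ω).2 (CR.box n v)).toReal →
      ω ∉ E l) → Tendsto (fun l => P (E l)) atTop (𝓝 0) := fun η hη E hE => by
    refine tendsto_of_tendsto_of_tendsto_of_le_of_le' tendsto_const_nhds
      (Local_tendsto R hS hWO hac
        (fun c => (sim_dy n 0).measurable_pullX_hat W0 hin (hm η c)) (hT n _ W hin η hη))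
      (Eventually.of_forall fun _ => zero_le) ?_
    filter_upwards [eventually_gt_atTop 0] with l hl
    refine measure_mono_ae ?_
    filter_upwards [hS.geo, hS.ptsS l] with ω h1 h2 hω x hx
    by_contra hb
    obtain ⟨a1, a2, a3⟩ := Local_det hd h1 h2 hW (hWO.trans hS.sub) hx rfl
      (not_not.1 fun k => hb (Or.inl k))
    exact hE l hl ω _ hb a1 a2 (Local_exp hl ▸ a3) hω
  have hs : sc n ^ 2 ≤ 1 := pow_le_one₀ (CR.sc_pos n).le (pow_le_one₀ (by norm_num) (by norm_num))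
  refine ⟨fun p hp η hη => key η hη _ fun l hl ω X hb h1 _ _ => ?_,
    fun η hη => key (η / 2) (half_pos hη) _ fun l hl ω X hb _ h2 h3 => ?_⟩
  · simp only [badX, mem_ofPred_eq, not_or, not_lt] at hb ⊢
    rw [h1, mul_comm _ (sc n ^ 2), ← mul_sub, abs_mul, abs_of_nonneg (sq_nonneg _)]
    refine (mul_le_of_le_one_left (abs_nonneg _) hs).trans ?_
    rcases hp with rfl | rfl | rfl
    · simpa using hb.2.1
    · simpa using hb.2.2.1
    · rw [Complex.sq_norm, Complex.normSq_apply, mul_comm (A _)]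
      norm_num
      exact hb.2.2.2.1
  · simp only [badX, mem_ofPred_eq, not_or, not_lt] at hb ⊢
    have h4 := hb.2.2.2.2
    have hl' : (0 : ℝ) < l := hl
    have hk := hκ (ht M.γ l)
    have hp : 0 < κ (ht M.γ l) * l := mul_pos (by linarith) hl'
    rw [Local_exp hl, h3, ← h2, ← mul_assoc] at h4
    rw [div_sub' hp.ne', abs_div, abs_of_pos hp, div_le_iff₀ hp]
    nlinarith [mul_pos hη hl']

theorem localLaw (_F : M.All) (R : RefOK M) (hO : HO.OutM M) : ∃ A κ, LocalLaw M A κ := by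
  obtain ⟨d, A, κ, K, hd, hA, hκ, hm, hT⟩ := hO
  exact ⟨A, κ, localLaw_of R hd hA (fun c => (hκ c).1) hm hT⟩

end Pool.Agent.Lib.MP_0d9445_pr.AS
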