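import Pool.Agent.Lib.MP_0d9445_pr.AS.Defs
import Pool.Agent.Lib.MP_0d9445_pr.EN.All
import Pool.Agent.Lib.MP_0d9445_pr.Mu.Main

/-! The area measure of the reference law. -/

open MeasureTheory ProbabilityTheory Set Filter Topology Real LQ.Met
open scoped NNReal ENNReal

noncomputable section

namespace Pool.Agent.Lib.MP_0d9445_pr.AS

open CR PPP Walk Cell

variable {Ω : Type} [MeasurableSpace Ω] {M : Model} {P : Measure Ω} {S O N : Set ℂ}
  {s : Ω → Cf} {Y : ℝ≥0 → Ω → Set ℂ}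

theorem RefOK_measurable_cst (M : Model) :
    Measurable fun ω => cst (-(addFn (M.H 0 ω) (M.ginf ω)) 0) :=
  (ContinuousMap.continuous_const' (X := ℂ) (Y := ℝ)).measurable.comp
    ((Mu.measurable_eval 0).comp M.gff.meas).neg

theorem RefOK_measurable_hat (M : Model) : Measurable M.hat :=
  measurable_addFn.comp (M.gff.meas.prodMk (RefOK_measurable_cst M))

theorem RefOK_plus_hat (M : Model) : IsGFFplus M.hat M.P := by
  refine ⟨RefOK_measurable_hat M, _, RefOK_measurable_cst M, ?_⟩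
  simpa only [Model.hat, Mu.addFn_addFn, add_neg_cancel_right] using M.gff

theorem RefOK_hat_eq (M : Model) (ω : M.Ω) :
    M.hat ω = addFn (M.H 0 ω) (M.ginf ω + cst (-(addFn (M.H 0 ω) (M.ginf ω)) 0)) :=
  Mu.addFn_addFn _ _ _

/-- the measure of the reference law is almost surely regular -/
theorem RefOK_reg (M : Model) : ∃ α : ℝ, 0 < α ∧ ∀ᵐ c ∂M.ref0, Mu.Reg α c.2 := by
  obtain ⟨α, hα, h⟩ := Mu.ae_reg M.toLayers M.γ_pos M.γ_lt M.hμ
  refine ⟨α, hα, (ae_map_iff (M.measurable_conf.comp (RefOK_measurable_hat M)).aemeasurable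
    (measurable_snd (Mu.measurableSet_reg α))).2 ?_⟩
  filter_upwards [h, M.hμ.vague _ M.P _ (RefOK_plus_hat M)] with ω h1 h2
  refine (h1 0 (M.ginf ω + cst (-(addFn (M.H 0 ω) (M.ginf ω)) 0))).2 (M.μ (M.hat ω)) ?_
  rwa [← RefOK_hat_eq]

theorem RefOK_of_reg {α : ℝ} (hα : 0 < α) {m : Measure ℂ} (h : Mu.Reg α m) : MeasOK m univ :=
  ⟨fun _ hK _ => h.frost_self hα hK, fun U hU _ hne => h.openPos.open_pos U hU hne,
    h.low_self.mono fun _ hy _ => hy⟩

theorem refOK' (M : Model) : RefOK M := by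
  obtain ⟨α, hα, h⟩ := RefOK_reg M
  refine ⟨h.mono fun _ hc => RefOK_of_reg hα hc, fun N hN h0 => ?_⟩
  refine (ae_map_iff (M.measurable_conf.comp (RefOK_measurable_hat M)).aemeasurable
    (((Measure.measurable_coe hN).comp measurable_snd) (measurableSet_singleton 0))).2 ?_
  filter_upwards [Mu.ae_null M.toLayers M.γ_pos M.γ_lt M.hμ h0,
    M.hμ.vague _ M.P _ (RefOK_plus_hat M)] with ω h1 h2
  refine h1 0 (M.ginf ω + cst (-(addFn (M.H 0 ω) (M.ginf ω)) 0)) (M.μ (M.hat ω)) ?_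
  rwa [← RefOK_hat_eq]

theorem refOK (_F : M.All) : RefOK M := refOK' M

end Pool.Agent.Lib.MP_0d9445_pr.AS
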