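import Pool.Agent.Lib.MP_0d9445_pr.AS.Env
import Pool.Agent.Lib.MP_0d9445_pr.AS.Inst
import Pool.Agent.Lib.MP_0d9445_pr.AS.Local
import Pool.Agent.Lib.MP_0d9445_pr.AS.RefOK
import Pool.Agent.Lib.MP_0d9445_pr.EN.AllOf
import Pool.Agent.Lib.MP_0d9445_pr.HO.Inst
import Pool.Agent.Lib.MP_0d9445_pr.Su.Cone
import Pool.Agent.Lib.MP_0d9445_pr.Su.Sphere
import Pool.Agent.Lib.MP_0d9445_pr.Walk.All
import Pool.Agent.Lib.MP_0d9445_pr.Walk.ClockOf
import Pool.Agent.Lib.MP_0d9445_pr.BM.Revuz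

/-! The assembly for the cone and the sphere. -/

open MeasureTheory ProbabilityTheory Set Filter Topology Real LQ.Met
open scoped NNReal ENNReal

noncomputable section

namespace Pool.Agent.Lib.MP_0d9445_pr.AS

open CR PPP Walk Cell BM

variable {Ω : Type} [MeasurableSpace Ω] {M : Model} {P : Measure Ω} {N Z : Set ℂ}
  {s : Ω → Cf} {Y : ℝ≥0 → Ω → Set ℂ} {A κ : ℝ → ℝ}

/-- the number of steps of the walk per unit of time at intensity `l` -/
def tau (γ : ℝ) (A κ : ℝ → ℝ) (l : ℝ≥0) : ℝ :=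
  if l = 0 then 1 else κ (ht γ l) * l / (2 * A (ht γ l))

theorem tau_pos (hL : LocalLaw M A κ) (l : ℝ≥0) : 0 < tau M.γ A κ l := by
  unfold tau
  split_ifs with h
  · exact one_pos
  · have h1 := hL.1 (ht M.γ l)
    have h2 := hL.2.1 (ht M.γ l)
    have h3 : (0 : ℝ) < l := by positivity
    have h4 : 0 < κ (ht M.γ l) := by linarith
    positivity

theorem pathConv_congr {Ω' : Type} [MeasurableSpace Ω'] {Q : Measure Ω'} {X : ℝ → Ω' → ℂ}
    {St : ℕ → ℂ → Set ℂ} {x : ℕ → ℂ} {m m' : ℕ → ℝ} (h : PathConv Q X St x m)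
    (e : ∀ᶠ n in atTop, m n = m' n) : PathConv Q X St x m' := fun T hT F =>
  (h T hT F).congr' (e.mono fun n hn => by simp only [hn])

theorem tau_eq {l : ℕ → ℝ≥0} (hl : Tendsto l atTop atTop) (γ : ℝ) (A κ : ℝ → ℝ) :
    ∀ᶠ n in atTop, κ (ht γ (l n)) * l n / (2 * A (ht γ (l n))) = tau γ A κ (l n) :=
  (hl.eventually (eventually_gt_atTop 0)).mono fun _ h => (if_neg h.ne').symm

theorem clock_of {W : Measure Path} {μ : Measure ℂ} [SigmaFinite μ]
    {B : Path → StieltjesFunction ℝ≥0} (hW : IsWiener W) (hB : PCAF W μ B) (hZ : Z.Finite)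
    (hm : MeasOK μ Zᶜ) (y : ℂ) : IsClock W μ univ y B :=
  isClock_univ hW (isPCAF_of_revuz hW hB.meas hB.adapted hB.additive hB.revuz)
    hZ.isClosed.isOpen_compl (by rw [compl_compl]; exact hZ.measure_zero _) hm.frost hm.low y

/-- the walks on the Voronoi graphs of the point sets `Y n` converge to the time change of
Brownian motion from `z` by any clock with Revuz measure `μ` -/
def Conv (d : Met) (μ : Measure ℂ) (Y : ℕ → Set ℂ) (τ : ℕ → ℝ) (z : ℂ) : Prop :=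
  ∀ x : ℕ → ℂ, (∀ᶠ n in atTop, x n ∈ Y n) → Tendsto x atTop (𝓝 z) →
    ∀ (W : Measure Path) (B : Path → StieltjesFunction ℝ≥0), IsWiener W → PCAF W μ B →
      PathConv (Px W z) (fun t b => lbmPath b (B b) univ t)
        (fun n => (vor d (Y n)).step univ) x τ

/-- the walk on a surface that fills the plane, from points off the finite set `Z` -/
theorem Surf.conv (F : M.All) (R : RefOK M) (hL : LocalLaw M A κ) (hZ : Z.Finite)
    (hS : Surf M P univ Zᶜ N s Y) (hσ : ∀ᵐ ω ∂P, SigmaFinite (s ω).2) {l : ℕ → ℝ≥0}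
    (hl : Tendsto l atTop atTop) : ∃ φ : ℕ → ℕ, StrictMono φ ∧ ∀ᵐ ω ∂P, ∀ z ∉ Z,
      Conv (s ω).1 (s ω).2 (fun n => Y (l (φ n)) ω) (fun n => tau M.γ A κ (l (φ n))) z := by
  obtain ⟨φ, hφ, hE⟩ := hS.env micro_ok F R hL hl
  refine ⟨φ, hφ, ?_⟩
  filter_upwards [hσ, hS.measOK R, hE] with ω h1 h2 hE z hz x hx hxz W B hW hB
  have := plane_ok W Z _ _ _ _ _ x z (fun _ => B) hW hZ (fun y _ => clock_of hW hB hZ h2 y) hE
    (badNegl_univ hE.nice _ x) hx hxz hz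
  simp only [cells, vorS_univ] at this
  exact pathConv_congr this (tau_eq (hl.comp hφ.tendsto_atTop) _ _ _)

theorem main_exists_csq {U : Set ℂ} (hU : IsOpen U) {z : ℂ} (hz : z ∈ U) :
    ∃ r, 0 < r ∧ csq z r ⊆ U := by
  obtain ⟨ε, hε, h⟩ := Metric.isOpen_iff.1 hU z hz
  refine ⟨ε / 3, by positivity, fun w hw => h ?_⟩
  rw [Metric.mem_ball, dist_eq_norm]
  have := Complex.norm_le_abs_re_add_abs_im (w - z)
  have h1 : |(w - z).re| ≤ ε / 3 := hw.1
  have h2 : |(w - z).im| ≤ ε / 3 := hw.2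
  linarith

theorem main_closure_osq (z : ℂ) (r : ℝ) : closure (osq z r) ⊆ csq z r :=
  closure_minimal (fun _ h => ⟨h.1.le, h.2.le⟩) (isCompact_csq z r).isClosed

theorem main_bounded_osq (z : ℂ) (r : ℝ) : Bornology.IsBounded (osq z r) :=
  (isCompact_csq z r).isBounded.subset fun _ h => ⟨h.1.le, h.2.le⟩

theorem continuous_radial (γ Q : ℝ) {b c : ℝ≥0 → ℝ} (hb : Continuous b) (hc : Continuous c)
    (b0 : b 0 = 0) (c0 : c (sSup {u | c u + (Q - γ) * u = 0}) +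
      (Q - γ) * (sSup {u | c u + (Q - γ) * u = 0} : ℝ≥0) = 0) : Continuous (radial γ Q b c) := by
  unfold radial
  refine Continuous.if_le (by fun_prop) (by fun_prop) continuous_const continuous_id ?_
  rintro _ rfl
  simpa [b0] using c0.symm

theorem last_zero {c : ℝ≥0 → ℝ} (hc : Continuous c) (c0 : c 0 = 0) (a : ℝ) :
    c (sSup {u | c u + a * u = 0}) + a * (sSup {u | c u + a * u = 0} : ℝ≥0) = 0 := by
  by_cases hb : BddAbove {u : ℝ≥0 | c u + a * u = 0}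
  · exact IsClosed.csSup_mem (s := {u : ℝ≥0 | c u + a * u = 0})
      (isClosed_eq (by fun_prop) continuous_const) ⟨0, by simp [c0]⟩ hb
  · rw [NNReal.sSup_of_not_bddAbove hb]
    simp [c0]

variable {h : Ω → Field} {f : Ω → ℂ → ℝ} {d : Ω → Met} {m : Ω → Measure ℂ}

theorem cone_cont {γ Q : ℝ} (hC : IsCone γ Q P h f) : ∀ᵐ ω ∂P, ContinuousOn (f ω) {0}ᶜ := by
  obtain ⟨-, -, b, c, -, -, hb, hc, -, -, hf⟩ := hC
  filter_upwards [hb.cont, hc.cont, hb.toIsPreBrownianReal.eval_zero_ae_eq_zero,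
    hc.toIsPreBrownianReal.eval_zero_ae_eq_zero] with ω h1 h2 h3 h4
  have e : f ω = fun z => radial γ Q (b · ω) (c · ω) (-log ‖z‖) - h ω (-log ‖z‖, 0) :=
    funext (hf ω)
  have hl : ContinuousOn (fun z : ℂ => -log ‖z‖) {0}ᶜ :=
    (continuous_norm.continuousOn.log fun z hz => norm_ne_zero_iff.2 hz).neg
  rw [e]
  exact ((continuous_radial γ Q h1 h2 h3 (last_zero h2 h4 _)).comp_continuousOn hl).sub
    ((h ω).continuous.comp_continuousOn (hl.prodMk continuousOn_const))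

theorem cone_surf (F : M.All) (R : RefOK M) [IsProbabilityMeasure P] (hC : IsCone M.γ M.Q P h f)
    (hS : IsSurf M.γ M.ξ M.D M.μ {0} P h f d m) (hY : ∀ l, IsPPP P d m l (Y l)) :
    Surf M P univ {0}ᶜ (Metric.sphere 0 1) (fun ω => (d ω, m ω)) Y ∧
      ∀ᵐ ω ∂P, SigmaFinite (m ω) := by
  refine surf_of_locAC F R (finite_singleton 0) Metric.isClosed_sphere
    (Measure.addHaar_sphere _ _ _) hC.1.meas
    ⟨_, Su.ConeAux.isGFF0_map hC.1 hC.2.1, Measure.AbsolutelyContinuous.rfl⟩ (cone_cont hC) hS hY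
    fun z h0 h1 => ?_
  have h0' : 0 < ‖z‖ := norm_pos_iff.2 h0
  have h1' : ‖z‖ ≠ 1 := by simpa using h1
  rcases h1'.lt_or_gt with hz | hz
  · obtain ⟨r, hr, hU⟩ := main_exists_csq (U := {x : ℂ | 0 < ‖x‖ ∧ ‖x‖ < 1})
      ((isOpen_lt continuous_const continuous_norm).inter
        (isOpen_lt continuous_norm continuous_const)) ⟨h0', hz⟩
    exact ⟨r, hr, fun w hw => norm_pos_iff.1 (hU hw).1, Su.cone_locAC (fun _ => CM.cmPot) hC
      (main_bounded_osq z r) (Or.inl ((main_closure_osq z r).trans hU))⟩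
  · obtain ⟨r, hr, hU⟩ := main_exists_csq (U := {x : ℂ | 1 < ‖x‖})
      (isOpen_lt continuous_const continuous_norm) hz
    exact ⟨r, hr, fun w hw => norm_pos_iff.1 (one_pos.trans (hU hw)),
      Su.cone_locAC (fun _ => CM.cmPot) hC (main_bounded_osq z r)
        (Or.inr ((main_closure_osq z r).trans hU))⟩

theorem ball_pos (F : M.All) (R : RefOK M) (ν : Measure Field) (hν : Su.IsGFF0 ν) :
    ∀ᵐ H ∂ν, ∀ r > 0, M.μ H (Metric.ball 1 r) ≠ 0 := by
  have hm : Measurable M.hat := EN.measurable_nrm.comp M.gff.meas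
  have h1 : ∀ᵐ ω ∂M.P, MeasOK (M.μ (M.hat ω)) univ :=
    ae_of_ae_map (M.measurable_conf.comp hm).aemeasurable R.ok
  have h2 : ∀ n : ℕ, ∀ᵐ H ∂ν, M.μ H (Metric.ball 1 (1 / ((n : ℝ) + 1))) ≠ 0 := fun n => by
    rw [F.eu ν hν.1 hν.2, ae_map_iff hm.aemeasurable]
    · exact h1.mono fun ω hω => hω.pos _ Metric.isOpen_ball (subset_univ _)
        (Metric.nonempty_ball.2 (by positivity))
    · exact (((Measure.measurable_coe measurableSet_ball).comp M.hμ.meas)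
        (measurableSet_singleton 0)).compl
  filter_upwards [ae_all_iff.2 h2] with H hH r hr h0
  obtain ⟨n, hn⟩ := exists_nat_one_div_lt hr
  exact hH n (measure_mono_null (Metric.ball_subset_ball hn.le) h0)

theorem sphere_surf (F : M.All) (R : RefOK M) [IsProbabilityMeasure P]
    (hC : IsSphere M.γ M.Q M.μ P h f) (hS : IsSurf M.γ M.ξ M.D M.μ {0, 1} P h f d m)
    (hY : ∀ l, IsPPP P d m l (Y l)) :
    Surf M P univ {0, 1}ᶜ ∅ (fun ω => (d ω, m ω)) Y ∧ ∀ᵐ ω ∂P, SigmaFinite (m ω) := by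
  have hZ : ({0, 1} : Set ℂ).Finite := toFinite _
  refine surf_of_locAC F R hZ isClosed_empty measure_empty hC.1 ?_ ?_ hS hY fun z hz _ => ?_
  · obtain ⟨ν, c, h1, h2, h3⟩ := hC.2.1
    exact ⟨ν, ⟨h1, h2⟩, h3 ▸ withDensity_absolutelyContinuous _ _⟩
  · refine Eventually.of_forall fun ω => ?_
    rw [show f ω = _ from funext (hC.2.2 ω)]
    unfold sphereFn
    refine ContinuousOn.sub (ContinuousOn.add (ContinuousOn.sub ?_ ?_) ?_) continuousOn_const
    · exact continuousOn_const.mul (continuous_norm.continuousOn.log fun z hz =>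
        norm_ne_zero_iff.2 fun e => hz (Or.inl e))
    · exact continuousOn_const.mul (ContinuousOn.log (by fun_prop) fun z hz =>
        norm_ne_zero_iff.2 fun e => hz (Or.inr (sub_eq_zero.1 e)))
    · exact continuousOn_const.mul Su.continuous_L.continuousOn
  · obtain ⟨r, hr, hU⟩ := main_exists_csq hZ.isClosed.isOpen_compl hz
    exact ⟨r, hr, hU, Su.sphere_locAC M.γ_pos M.hμ (fun _ => CM.cmPot) (ball_pos F R) hC
      (main_bounded_osq z r) (fun e => hU (main_closure_osq z r e) (Or.inl rfl))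
      fun e => hU (main_closure_osq z r e) (Or.inr rfl)⟩

theorem main (M : Model) : ∃ τ : ℝ≥0 → ℝ, (∀ l, 0 < τ l) ∧
    ∀ (Ω : Type) [MeasurableSpace Ω] (P : Measure Ω) [IsProbabilityMeasure P]
      (h : Ω → Field) (f : Ω → ℂ → ℝ) (Z : Set ℂ) (d : Ω → Met) (m : Ω → Measure ℂ)
      (Y : ℝ≥0 → Ω → Set ℂ),
      (IsCone M.γ M.Q P h f ∧ Z = {0} ∨ IsSphere M.γ M.Q M.μ P h f ∧ Z = {0, 1}) →
      IsSurf M.γ M.ξ M.D M.μ Z P h f d m → (∀ l, IsPPP P d m l (Y l)) →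
      ∀ l : ℕ → ℝ≥0, Tendsto l atTop atTop → ∃ φ : ℕ → ℕ, StrictMono φ ∧ ∀ᵐ ω ∂P, ∀ z ∉ Z,
        Conv (d ω) (m ω) (fun n => Y (l (φ n)) ω) (fun n => τ (l (φ n))) z := by
  have F := M.all
  have R := refOK F
  obtain ⟨A, κ, hL⟩ := localLaw F R (HO.outM F)
  refine ⟨tau M.γ A κ, tau_pos hL, fun Ω _ P _ h f Z d m Y hc hS hY l hl => ?_⟩
  rcases hc with ⟨hc, rfl⟩ | ⟨hc, rfl⟩
  · obtain ⟨h1, h2⟩ := cone_surf F R hc hS hY
    exact h1.conv F R hL (finite_singleton 0) h2 hl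
  · obtain ⟨h1, h2⟩ := sphere_surf F R hc hS hY
    exact h1.conv F R hL (toFinite _) h2 hl

end Pool.Agent.Lib.MP_0d9445_pr.AS
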