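import Pool.Agent.Lib.MP_0d9445_pr.AS.Defs
import Pool.Agent.Lib.MP_0d9445_pr.EN.All
import Pool.Agent.Lib.MP_0d9445_pr.CR.Top

/-! Small families of bad patterns are unlikely on the surface. -/

open MeasureTheory ProbabilityTheory Set Filter Topology Real LQ.Met
open scoped NNReal ENNReal

noncomputable section

namespace Pool.Agent.Lib.MP_0d9445_pr.AS

open CR PPP Walk Cell

variable {Ω : Type} [MeasurableSpace Ω] {M : Model} {P : Measure Ω} {S O N : Set ℂ}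
  {s : Ω → Cf} {Y : ℝ≥0 → Ω → Set ℂ}

theorem Small_good {K K' : Casc Xi} (h1 : K.ν = K'.ν) (h2 : K.Q = K'.Q) (h3 : K.σ = K'.σ)
    (h4 : K.θ0 = K'.θ0) {d : ℕ} (hd : K.Good d) : K'.Good d := by
  have e : ∀ n m : ℕ, K.lay n m = K'.lay n m := fun n m => by
    induction m with
    | zero => rfl
    | succ m ih => simp only [Casc.lay, ih, h1]
  have e' : K.θ = K'.θ := by rw [Casc.θ, Casc.θ, h3, h4]
  refine ⟨hd.1, fun n y y' g a => ?_⟩
  rw [← e, ← e', ← h2, ← h3]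
  exact hd.2 n y y' g a

/-- the step does not depend on the distortion and on the window -/
theorem exists_good_all {p : ℝ} (h : M.Base p) :
    ∃ d, ∀ (L : ℝ) (hL : 0 ≤ L) (W : Sq), (M.casc h L hL W).Good d := by
  obtain ⟨d, hd⟩ := (M.casc h 0 le_rfl (0, 0)).exists_good
  have e1 : ∀ L hL W, (M.casc h L hL W).ν = fun n : ℕ => M.ν n := fun _ _ _ => rfl
  have e2 : ∀ L hL W, (M.casc h L hL W).Q = M.Q := fun _ _ _ => rfl
  have e3 : ∀ L hL W, (M.casc h L hL W).σ = p * M.γ := fun _ _ _ => rfl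
  have e4 : ∀ L hL W, (M.casc h L hL W).θ0 = 48 * (p * M.γ) := fun _ _ _ => rfl
  exact ⟨d, fun L hL W => Small_good (by rw [e1, e1]) (by rw [e2, e2]) (by rw [e3, e3])
    (by rw [e4, e4]) hd⟩

theorem tendsto_ht : Tendsto (ht M.γ) atTop atTop :=
  (tendsto_log_atTop.comp (NNReal.tendsto_coe_atTop.2 tendsto_id)).atTop_div_const M.γ_pos

theorem exp_ht {l : ℝ≥0} (hl : 0 < l) : exp (M.γ * ht M.γ l) = l := by
  rw [ht, mul_div_cancel₀ _ M.γ_pos.ne', exp_log (NNReal.coe_pos.2 hl)]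

/-- the infrared part is tame -/
theorem Small_tame (M : Model) (y : ℂ) {δ : ℝ≥0∞} (hδ : 0 < δ) :
    ∃ L : ℝ≥0, M.Ginf {g | oo 0 y g ≤ L ∧ |g y| ≤ L}ᶜ ≤ δ := by
  have ho : Measurable (oo 0 y) := (CR.measurable_lip EN.measurable_fn Metric.isOpen_ball).const_mul _
  have hm : ∀ n : ℕ, MeasurableSet {g : Fn | oo 0 y g ≤ (n : ℝ≥0) ∧ |g y| ≤ (n : ℝ≥0)} := fun n =>
    (measurableSet_le ho measurable_const).inter
      (measurableSet_le (EN.measurable_fn y).abs measurable_const)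
  have : IsProbabilityMeasure M.Ginf := Measure.isProbabilityMeasure_map M.meas_ginf.aemeasurable
  have h1 : ∀ᵐ g ∂M.Ginf, oo 0 y g < ∞ := by
    refine (ae_map_iff M.meas_ginf.aemeasurable (measurableSet_lt ho measurable_const)).2 ?_
    have hF : Measurable fun g : Fn => ex (ENNReal.ofReal 1 * lip g (Metric.ball 0 (‖y‖ + 48))) :=
      CR.measurable_ex.comp ((CR.measurable_lip EN.measurable_fn Metric.isOpen_ball).const_mul _)
    filter_upwards [ae_lt_top (hF.comp M.meas_ginf) (M.lipexp_ginf 1 (‖y‖ + 48)).ne] with ω a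
    have h2 : lip (M.ginf ω) (Metric.ball 0 (‖y‖ + 48)) < ∞ := by
      by_contra hn
      rw [not_lt_top_iff] at hn
      simp [hn, Wt_ex_top] at a
    refine ENNReal.mul_lt_top ENNReal.ofReal_lt_top ((lip_mono _ ?_).trans_lt h2)
    refine Metric.ball_subset_ball' ?_
    simp [sc, add_comm]
  have h3 := tendsto_measure_iInter_atTop (μ := M.Ginf)
    (s := fun n : ℕ => {g : Fn | oo 0 y g ≤ (n : ℝ≥0) ∧ |g y| ≤ (n : ℝ≥0)}ᶜ)
    (fun n => (hm n).compl.nullMeasurableSet)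
    (fun n m hnm => compl_subset_compl.2 fun g a =>
      ⟨a.1.trans (by exact_mod_cast hnm), a.2.trans (by exact_mod_cast hnm)⟩)
    ⟨0, measure_ne_top _ _⟩
  have h4 : M.Ginf (⋂ n : ℕ, {g : Fn | oo 0 y g ≤ (n : ℝ≥0) ∧ |g y| ≤ (n : ℝ≥0)}ᶜ) = 0 := by
    refine measure_mono_null (t := {g | ¬ oo 0 y g < ∞}) (fun g a b => ?_) h1
    obtain ⟨n, hn⟩ := exists_nat_ge (max (oo 0 y g).toReal |g y|)
    refine mem_iInter.1 a n ⟨?_, (le_max_right _ _).trans (by exact_mod_cast hn)⟩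
    rw [← ENNReal.ofReal_toReal b.ne]
    exact (ENNReal.ofReal_le_ofReal ((le_max_left _ _).trans hn)).trans (by simp)
  rw [h4] at h3
  exact ⟨_, (h3.eventually (ge_mem_nhds hδ)).exists.choose_spec⟩

/-- the form of AS2 that the assembly uses -/
theorem Crude.small {p : ℝ} (h : M.Base p) {W : Sq} (hC : Crude M P s Y W) :
    ∃ G : ℕ → Set Ω, (∀ k, MeasurableSet (G k)) ∧ (∀ᵐ ω ∂P, ∃ k, ω ∈ G k) ∧
      ∀ k, ∃ (L : ℝ) (hL : 0 ≤ L),
      ∀ (y : ℂ) (E : ℕ → ℝ → Set Pat), (∀ j c, Up (E j c)) →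
        (∀ j c (L' : ℝ) (hL' : 0 ≤ L'), MeasurableSet ((M.casc h L' hL' W).pat ⁻¹' E j c)) →
        (M.casc h L hL W).Small y E → ∀ ε : ℝ≥0∞, 0 < ε → ∀ᶠ j in atTop, ∀ᶠ l in atTop,
          P (G k ∩ {ω | tpat W (s ω).1 (Y l ω) ∈ E j (ht M.γ l)}) ≤ ε := by
  obtain ⟨G, h1, h2, h3⟩ := hC
  refine ⟨G, h1, h2, fun k => ?_⟩
  obtain ⟨L, hL, H⟩ := h3 k
  refine ⟨L, hL, fun y E hU hm hs ε hε => ?_⟩
  obtain ⟨δ, hδ, H⟩ := H ε hε
  have h0 := ENNReal.half_pos hδ.ne'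
  obtain ⟨B, hB⟩ := Small_tame M y h0
  have : IsProbabilityMeasure M.Ginf := Measure.isProbabilityMeasure_map M.meas_ginf.aemeasurable
  filter_upwards [hs (δ / 2) B h0] with j hj
  filter_upwards [(tendsto_ht (M := M)).eventually hj, eventually_gt_atTop 0] with l a hl
  refine H l hl _ (hU j _) (hm j _) ?_
  set T := {g : Fn | oo 0 y g ≤ B ∧ |g y| ≤ B}ᶜ
  calc _ ≤ ∫⁻ g, δ / 2 + T.indicator 1 g ∂M.Ginf := lintegral_mono fun g => by
        by_cases hg : g ∈ T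
        · rw [indicator_of_mem hg]
          exact prob_le_one.trans le_add_self
        · rw [indicator_of_notMem hg, add_zero]
          have b := not_not.1 hg
          exact a g b.1 b.2
    _ ≤ δ / 2 + δ / 2 := by
        rw [lintegral_add_left measurable_const, lintegral_const, measure_univ, mul_one]
        exact add_le_add le_rfl ((lintegral_indicator_one_le T).trans hB)
    _ = δ := ENNReal.add_halves δ

end Pool.Agent.Lib.MP_0d9445_pr.AS
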