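import Pool.Agent.Lib.MP_0d9445_pr.AS.LW
import Pool.Agent.Lib.MP_0d9445_pr.AS.Dom
import Pool.Agent.Lib.MP_0d9445_pr.AS.Small
import Pool.Agent.Lib.MP_0d9445_pr.CR.EnvN

/-! The crude estimates in a window of the surface. -/

open MeasureTheory ProbabilityTheory Set Filter Topology Real LQ.Met
open scoped NNReal ENNReal

noncomputable section

namespace Pool.Agent.Lib.MP_0d9445_pr.AS

open CR PPP Walk Cell

variable {Ω : Type} [MeasurableSpace Ω] {M : Model} {P : Measure Ω} {S O N : Set ℂ}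
  {s : Ω → Cf} {Y : ℝ≥0 → Ω → Set ℂ}

/-- the window data of the surface -/
def lw (W : Sq) (G : Set Ω) (d : ℕ) (A : ℝ≥0) (α : ℝ) (s : Ω → Cf) (Y : ℝ≥0 → Ω → Set ℂ) : LW Ω :=
  ⟨W.o, G, d, fun l ω => tpat W (s ω).1 (Y l ω), A, α⟩

theorem Win_badK_anti {d m : ℕ} {v : ℤ × ℤ} {A A' : ℝ≥0} (h : A ≤ A') :
    badK d A' m v ⊆ badK d A m v :=
  fun _ ha => lt_of_le_of_lt (ENNReal.coe_le_coe.2 h) ha

theorem Win_badS_anti {d m : ℕ} {v : ℤ × ℤ} {β : ℝ} {A A' : ℝ≥0} (h : A ≤ A') :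
    badS d A' β m v ⊆ badS d A β m v := by
  rintro a ⟨i, w, hw, ha⟩
  exact ⟨i, w, hw, lt_of_le_of_lt (mul_le_mul_left (ENNReal.coe_le_coe.2 h) _) ha⟩

theorem Win_kappa {p : ℝ} (h : M.Base p) : ∃ κ : ℝ, 0 < κ ∧
    p * M.γ < κ * (p * M.γ * M.Q - (p * M.γ) ^ 2 / 2 - 2) * log 2 := by
  have K := (M.casc h 0 le_rfl (0, 1)).zσ
  have hz : 0 < (p * M.γ * M.Q - (p * M.γ) ^ 2 / 2 - 2) * log 2 :=
    mul_pos (sub_pos.2 K) (log_pos one_lt_two)
  have hp : 0 < p * M.γ := mul_pos (by linarith [h.one_lt]) M.γ_pos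
  refine ⟨(p * M.γ + 1) / ((p * M.γ * M.Q - (p * M.γ) ^ 2 / 2 - 2) * log 2), by positivity, ?_⟩
  rw [mul_assoc, div_mul_cancel₀ _ hz.ne']
  linarith

theorem Win_mono {E E' : ℝ≥0 → Set Ω} (h : VanL P E') (hE : ∀ l, E l ⊆ E' l) : VanL P E :=
  tendsto_of_tendsto_of_tendsto_of_le_of_le tendsto_const_nhds h (fun _ => zero_le)
    fun l => measure_mono (hE l)

theorem Surf.win (F : M.All) (hS : Surf M P S O N s Y) {κ : ℝ → ℝ} (hκ : ∀ c, 1 / 2 ≤ κ c) :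
    ∃ κ₀ : ℝ, 0 < κ₀ ∧ ∀ W : Sq, W.c ⊆ O → Crude M P s Y W →
      ∃ G : ℕ → Set Ω, (∀ᵐ ω ∂P, ∃ k, ω ∈ G k) ∧ ∀ k, ∃ d A α,
        (lw W (G k) d A α s Y).OK P (cells S s Y) (fun l => κ (ht M.γ l) * l)
          fun l => ⌈κ₀ * ht M.γ l⌉₊ := by
  obtain ⟨p, h⟩ := F.base
  obtain ⟨κ₀, h0, hκ₀⟩ := Win_kappa h
  obtain ⟨d, hd⟩ := exists_good_all h
  refine ⟨κ₀, h0, fun W hW hC => ?_⟩
  obtain ⟨G, -, hG, H⟩ := hC.small h
  refine ⟨G, hG, fun k => ?_⟩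
  obtain ⟨L, hL, H⟩ := H k
  set K := M.casc h L hL W with hK
  obtain ⟨A₁, h₁⟩ := K.small_K (hd L hL W)
  obtain ⟨A₂, h₂⟩ := K.small_S (hd L hL W)
  have d7 : 7 ≤ d := (hd L hL W).1
  have hM : ∀ l : ℝ≥0, (l : ℝ) ≤ 2 * (κ (ht M.γ l) * l) := fun l => by
    nlinarith [hκ (ht M.γ l), l.coe_nonneg]
  have van : ∀ (y : ℂ) (E : ℝ → Set Pat), (∀ c, Up (E c)) →
      (∀ c (L' : ℝ) (hL' : 0 ≤ L'), MeasurableSet ((M.casc h L' hL' W).pat ⁻¹' E c)) →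
      K.Small y (fun _ c => E c) →
      VanL P fun l => G k ∩ {ω | tpat W (s ω).1 (Y l ω) ∈ E (ht M.γ l)} :=
    fun y E h1 h2 h3 => ENNReal.tendsto_nhds_zero.2 fun ε hε =>
      (H y (fun _ c => E c) (fun _ => h1) (fun _ => h2) h3 ε hε).exists.choose_spec
  have hz := K.z_σ
  refine ⟨d, max A₁ A₂, (K.z K.σ - 2) / 2 * (K.γ / K.σ), d7,
    mul_pos (by linarith) (div_pos K.γ_pos K.σ_pos), fun l => ?_, fun m v hv => ?_,
    fun m v hv => ?_, fun j m v hv => ?_, fun m v _ => ?_, fun m v hv ε hε => ?_,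
    fun m v hv η hη ll I hI h0 ε hε => ?_⟩
  · have hY : ∀ᵐ ω ∂P, Y l ω ⊆ S := by
      first
        | exact hS.ptsS l
        | exact Eventually.of_forall (hS.ptsS l)
    filter_upwards [hS.geo, hY, (hS.cox l W hW).ae_finite] with ω h1 h2 h3 _
    exact ⟨dom_tpat h1 h2 (hW.trans hS.sub), h3,
      fun m v hB => near_mkPat (C := cells S s Y l ω) (fun _ hx => hx.1.1) m v hB⟩
  · exact van _ (fun _ => badB m v) (fun _ => up_badB m v)
      (fun _ L' hL' => (M.casc h L' hL' W).meas_badB m v) (K.small_B hv)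
  · exact Win_mono (van _ (fun _ => badK d A₁ m v) (fun _ => up_badK d A₁ m v)
      (fun _ L' hL' => (M.casc h L' hL' W).meas_badK d7 A₁ m v) (h₁ m v hv))
      fun l ω hω => ⟨hω.1, Win_badK_anti (le_max_left _ _) hω.2⟩
  · exact Win_mono (van _ (fun _ => badS d A₂ (1 / (j + 1)) m v) (fun _ => up_badS d A₂ _ m v)
      (fun _ L' hL' => (M.casc h L' hL' W).meas_badS d7 A₂ _ m v)
      (h₂ _ (by positivity) m v hv)) fun l ω hω => ⟨hω.1, Win_badS_anti (le_max_right _ _) hω.2⟩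
  · exact van _ (fun c => badE ⌈κ₀ * c⌉₊ m v) (fun _ => up_badE _ m v)
      (fun _ L' hL' => (M.casc h L' hL' W).meas_badE _ m v) (K.small_E hκ₀ m v)
  · obtain ⟨j, hj⟩ := (H _ _ (fun j c => up_badP d _ _ j m v)
      (fun j c L' hL' => (M.casc h L' hL' W).meas_badP d7 _ _ j m v)
      (K.small_P (hd L hL W) hv) ε hε).exists
    refine ⟨j, ?_⟩
    filter_upwards [hj, eventually_gt_atTop 0] with l h1 h2
    refine le_trans (measure_mono (inter_subset_inter_right _ fun ω hω => badP_anti ?_ hω)) h1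
    exact (exp_ht h2).trans_le (hM l)
  · filter_upwards [H _ _ (fun j c => up_badF d _ _ _)
      (fun j c L' hL' => (M.casc h L' hL' W).meas_badF d7 _ _ _)
      (K.small_F (hd L hL W) hv (half_pos hη) ll I hI h0) ε hε] with j hj
    filter_upwards [hj, eventually_gt_atTop 0] with l h1 h2
    refine le_trans (measure_mono (inter_subset_inter_right _ fun ω hω => badF_anti ?_ hω)) h1
    have e : exp (K.γ * ht M.γ l) = l := exp_ht h2
    rw [e]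
    nlinarith [hM l]

end Pool.Agent.Lib.MP_0d9445_pr.AS
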